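import Mathlib
import Pool.Agent.E8helper20.CTV.Fin
import Pool.Agent.E8helper20.CTV.Pieces
import Pool.Agent.E8helper87.CN.Asm

/-!
# The `3`-part of the Birch and Swinnerton-Dyer conjecture over `ℚ(√-3)` for five of the nine classes
of the cubic twists of `y² + y = x³`

`K` is the field of third roots of unity, `ω` is a primitive third root of unity, `√-3 = 1 + 2 ω`, and
`E_a : y² + a y = x³`, `a ∈ 𝓞 K`. Up to isomorphism these are all the elliptic curves over `K` with
`j = 0` and a point of order three over `K`; `E_a` and `E_{-a}` are isomorphic, and `a` can be taken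
cube-free. Up to the sign every cube-free `a` that does not divide a power of `3` is in exactly one of
the nine classes `a = c ω ^ b D`, `c = 1, √-3, 3`, `b = 0, 1, 2`, `D ≠ 1` cube-free and `1` modulo `3`.
The curves are ordered by the norm of `a`. The good classes are the five classes `c ω ^ b = ω, ω², 3,
3 ω, 3 ω²`; they have the density `7 / 13` in all the cubic twists.

* For ALL the `a` in the good classes the series `L(E_a / K, s)` is continued to an entire function, and
  the quotient `ρ` of `L(E_a / K, 1)` and of the right-hand side of the conjecture (for rank `0`)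
  without the order of `Ш` is integral at every valuation of `ℂ` above `3`, and it is a unit there if
  and only if `E_a(K)` is finite and `Ш(E_a / K)[3^∞] = 0`. This is the case exactly when the
  Laplacian of the cubic residue symbols of the prime divisors of `D`, with an additional vertex for
  the number `c ω ^ b` where the functions vanish, has no kernel.
* In each good class (and in each union of good classes) the proportion of the `a` for which `E_a(K)`
  is finite, `Ш(E_a / K)[3^∞] = 0`, `L(E_a / K, 1) ≠ 0` and `ρ` is a unit above `3` tends to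
  `∏_{i ≥ 0} (1 - 3^{-(2 i + 1)}) = 0.6390...`.
* Among ALL the cubic twists the proportion of the `a` in the good classes with these properties tends
  to `7 / 13 * ∏_{i ≥ 0} (1 - 3^{-(2 i + 1)}) = 0.3441...`.

For `a = ω ^ b D` the bad reduction at the prime above `3` is wild with Tamagawa number `1`, and the
character of the curve has the conductor `3 √-3` there; for `a = 3 ω ^ b D` the type is `IV*`, the
Tamagawa number is `3` and the conductor of the character is `9`.

The group `Sha` of the library is the group of the continuous cocycles of the absolute Galois group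
of `K` with values in the points over an algebraic closure of `K` that are coboundaries at all the
places, modulo the coboundaries.  `NonsingRed v W P` says that `P` is the point at infinity or that
one of the partial derivatives of the equation at `P` is not in the maximal ideal.

Joint work: the statements, the method and the assembly are by helper20, the parts
`Pool/Agent/E8helperNN/CTW`, `Pool/Agent/E8helperNN/CTV` by the seats named in the file
`Pool/Agent/E8helper20/CTV/Pieces.lean`, the count of the cube-free elements (`Pool/Agent/E8helper87/CN`)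
by helper31, helper33, helper48, helper71, helper87; built on the projects CT3, CTK3 (helpers 2, 6, 7, 20, 23, 41,
47, 51, 69, 71, 85, 87), CTM (the seats named in
`Pool/Agent/Results/MP_7cad78_nt/AllCubicTwistRanksH20.lean`) and on the projects XK, XL, CT, CTK, KF of
the library (the seats named in the headers of the imported files).
-/

set_option autoImplicit false

namespace Pool.Agent.Results.MP_9ab903_nt.ThreePartFiveClassesH20

open NumberField IsDedekindDomain WeierstrassCurve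
open Pool.Agent.TH841.NF.D (Sha)
open Pool.Agent.Y696 (NonsingRed)
open scoped Classical

/-- The curve `E_a : y² + a y = x³`. -/
def curve {K : Type} [Field K] (a : K) : WeierstrassCurve K := ⟨0, 0, a, 0, 0⟩

variable {K : Type} [Field K] [NumberField K]

/-- `D` is `1` modulo `3`, not divisible by the cube of a non-unit, and not `1`. -/
def InClass (D : 𝓞 K) : Prop :=
  (3 : 𝓞 K) ∣ D - 1 ∧ (∀ x : 𝓞 K, x ^ 3 ∣ D → IsUnit x) ∧ D ≠ 1

/-- The multiplier `c ω ^ b` of the pair `t = (c, b)` (`c = 1, √-3, 3` is coded by `0, 1, 2`). -/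
def mult (ω : 𝓞 K) (t : Fin 3 × Fin 3) : 𝓞 K :=
  (if t.1 = 0 then 1 else if t.1 = 1 then 1 + 2 * ω else 3) * ω ^ (t.2 : ℕ)

/-- `a = c ω ^ b D` for the pair `t = (c, b)`, where `D` is in the class above. -/
def Twist (ω : 𝓞 K) (t : Fin 3 × Fin 3) (a : 𝓞 K) : Prop :=
  ∃ D : 𝓞 K, a = mult ω t * D ∧ InClass D

/-- The good pairs: `c ω ^ b = ω, ω², 3, 3 ω, 3 ω²`. -/
def good : Finset (Fin 3 × Fin 3) := {(0, 1), (0, 2), (2, 0), (2, 1), (2, 2)}

/-- The equation `W` is minimal at every finite place `v`, the number `c v` is the index of the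
group of the points of nonsingular reduction in `W(K_v)` (the Tamagawa number), and `c v = 1` for
all but finitely many `v`. -/
def IsTamagawa (W : WeierstrassCurve K) (c : HeightOneSpectrum (𝓞 K) → ℕ) : Prop :=
  (∀ v : HeightOneSpectrum (𝓞 K),
    IsMinimal (v.adicCompletionIntegers K) (W.baseChange (v.adicCompletion K)) ∧
    ∃ H : AddSubgroup (W.baseChange (v.adicCompletion K)).toAffine.Point,
      (∀ P, P ∈ H ↔ NonsingRed Valued.v (W.baseChange (v.adicCompletion K)) P) ∧
      H.index = c v) ∧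
  {v | c v ≠ 1}.Finite

/-- `E_a(K)` is finite and the `3`-primary part of `Ш(E_a / K)` is trivial. -/
def FiniteAndTrivial (a : 𝓞 K) : Prop :=
  Finite (curve (a : K)).toAffine.Point ∧ ∀ (n : ℕ) (x : Sha (curve (a : K))), 3 ^ n • x = 0 → x = 0

/-- The order of the torsion subgroup of `E_a(K)`. -/
noncomputable def torsionOrder (a : 𝓞 K) : ℕ :=
  Nat.card (AddCommGroup.torsion (curve (a : K)).toAffine.Point)

/-- The torsion subgroup of `E_a(K)` is finite, of order divisible by `3` and not by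
`9`; `Lf` is an entire function equal to `L(E_a / K, s)` for `Re s > 3 / 2`; for every embedding `σ`
of `K` and every pair of periods `ω₁, ω₂` of a lattice `Λ` with `g₂ = 0`, `g₃ = - σ(a)²` (the period
lattice of `E_a`; `A = |Im (conj ω₁ ω₂)|` is the area of a period parallelogram, and `2 A` is the
factor of `Ω(E_a)` at the complex place; such a `Λ` exists)
`Lf 1 = ρ · 2 A · ∏ c_v / (√|Δ(K)| |E_a(K)_tors|²)`, where `ρ` is integral at every valuation `v` of
`ℂ` above `3`, and a unit if and only if `E_a(K)` is finite and `Ш(E_a / K)[3^∞] = 0`. -/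
def Law (a : 𝓞 K) : Prop :=
  Finite (AddCommGroup.torsion (curve (a : K)).toAffine.Point) ∧
  padicValNat 3 (torsionOrder a) = 1 ∧
  ∃ (Lf : ℂ → ℂ) (c : HeightOneSpectrum (𝓞 K) → ℕ),
    Differentiable ℂ Lf ∧
    (∀ s : ℂ, 3 / 2 < s.re →
      LSeriesSummable ((fun n : ℤ => (n : ℂ)) ∘ (curve (a : K)).LFunction) s ∧
        Lf s = (curve (a : K)).LSeries s) ∧
    (FiniteAndTrivial a → Lf 1 ≠ 0) ∧
    IsTamagawa (curve (a : K)) c ∧
    ∀ σ : K →+* ℂ, (∃ Λ : PeriodPair, Λ.g₂ = 0 ∧ Λ.g₃ = -(σ a) ^ 2) ∧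
      ∀ Λ : PeriodPair, Λ.g₂ = 0 → Λ.g₃ = -(σ a) ^ 2 → ∃ ρ : ℂ,
        Lf 1 = ρ * (((2 * |((starRingEnd ℂ) Λ.ω₁ * Λ.ω₂).im| : ℝ) : ℂ) * ((∏ᶠ w, c w : ℕ) : ℂ) /
          (((Real.sqrt |(discr K : ℝ)| : ℝ) : ℂ) * (torsionOrder a : ℂ) ^ 2)) ∧
        ∀ (Γ : Type) [LinearOrderedCommGroupWithZero Γ] (v : Valuation ℂ Γ), v 3 < 1 →
          v ρ ≤ 1 ∧ (v ρ = 1 ↔ FiniteAndTrivial a)

/-- `D` is the product of the powers `π i ^ e i`, `e i = 1, 2`, of the primes `π i`, which are `1`
modulo `3` and do not divide each other, the cubic residue symbol of `π i` modulo `π j` is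
`ω ^ χ j i`, and the cubic residue symbol of `c` modulo `π j` is `ω ^ τ j`. -/
def IsFactorization (c ω D : 𝓞 K) (n : ℕ) (π : Fin n → 𝓞 K) (e : Fin n → ZMod 3)
    (χ : Fin n → Fin n → ZMod 3) (τ : Fin n → ZMod 3) : Prop :=
  (∀ i, Prime (π i) ∧ (3 : 𝓞 K) ∣ π i - 1 ∧ e i ≠ 0) ∧ D = ∏ i, π i ^ (e i).val ∧
  (∀ i j, i ≠ j → ¬ π j ∣ π i ∧
    π j ∣ π i ^ (((Algebra.norm ℤ (π j)).natAbs - 1) / 3) - ω ^ (χ j i).val) ∧
  ∀ j, π j ∣ c ^ (((Algebra.norm ℤ (π j)).natAbs - 1) / 3) - ω ^ (τ j).val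

/-- The Laplacian of `χ` with the weights `e`, minus the diagonal matrix of `τ`, over the field with
three elements, is nonsingular. -/
def IsNonsingular {n : ℕ} (e : Fin n → ZMod 3) (χ : Fin n → Fin n → ZMod 3) (τ : Fin n → ZMod 3) :
    Prop :=
  ∀ v : Fin n → ZMod 3, (∀ j, ∑ i, e i * χ j i * (v i - v j) = τ j * v j) → ∀ j, v j = 0

/-- `D` has a factorization, and for each one: `E_{cD}(K)` is finite and `Ш(E_{cD} / K)[3^∞] = 0` if
and only if the weighted Laplacian of the cubic residue symbols minus the diagonal matrix of the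
symbols of `c` is nonsingular. -/
def Criterion (c D : 𝓞 K) : Prop :=
  (∃ (ω : 𝓞 K) (n : ℕ) (π : Fin n → 𝓞 K) (e : Fin n → ZMod 3) (χ : Fin n → Fin n → ZMod 3)
    (τ : Fin n → ZMod 3), ω ^ 2 + ω + 1 = 0 ∧ IsFactorization c ω D n π e χ τ) ∧
  ∀ (ω : 𝓞 K) (n : ℕ) (π : Fin n → 𝓞 K) (e : Fin n → ZMod 3) (χ : Fin n → Fin n → ZMod 3)
    (τ : Fin n → ZMod 3), ω ^ 2 + ω + 1 = 0 → IsFactorization c ω D n π e χ τ →
      (FiniteAndTrivial (c * D) ↔ IsNonsingular e χ τ)

theorem result (K : Type) [Field K] [NumberField K] [IsCyclotomicExtension {3} ℚ K] (ω : 𝓞 K)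
    (hω : ω ^ 2 + ω + 1 = 0) :
    (∀ a : 𝓞 K, (∀ x : 𝓞 K, x ^ 3 ∣ a → IsUnit x) → (∀ n : ℕ, ¬ a ∣ 3 ^ n) →
      (∃ t, Twist ω t a) ∨ ∃ t, Twist ω t (-a)) ∧
    (∀ t ∈ good, ∀ a : 𝓞 K, Twist ω t a → Law a) ∧
    (∀ t ∈ good, ∀ D : 𝓞 K, InClass D → Criterion (mult ω t) D) ∧
    (∀ T ⊆ good, T.Nonempty →
      (∃ c : ℝ, 0 < c ∧ ∃ X₀ : ℕ, ∀ X : ℕ, X₀ ≤ X →
        c * X ≤ ({a : 𝓞 K | Algebra.norm ℤ a ≤ X ∧ ∃ t ∈ T, Twist ω t a}.ncard : ℝ)) ∧
      Filter.Tendsto (fun X : ℕ =>
        ({a : 𝓞 K | Algebra.norm ℤ a ≤ X ∧ (∃ t ∈ T, Twist ω t a) ∧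
          FiniteAndTrivial a}.ncard : ℝ) /
          ({a : 𝓞 K | Algebra.norm ℤ a ≤ X ∧ ∃ t ∈ T, Twist ω t a}.ncard : ℝ)) Filter.atTop
        (nhds (∏' i : ℕ, (1 - (1 / 3 : ℝ) ^ (2 * i + 1))))) ∧
    Filter.Tendsto (fun X : ℕ =>
      ({a : 𝓞 K | Algebra.norm ℤ a ≤ X ∧ (∃ t ∈ good, Twist ω t a) ∧
        FiniteAndTrivial a}.ncard : ℝ) /
        ({a : 𝓞 K | Algebra.norm ℤ a ≤ X ∧ ∃ t, Twist ω t a}.ncard : ℝ)) Filter.atTop
      (nhds (7 / 13 * ∏' i : ℕ, (1 - (1 / 3 : ℝ) ^ (2 * i + 1)))) ∧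
    (0.639 : ℝ) < ∏' i : ℕ, (1 - (1 / 3 : ℝ) ^ (2 * i + 1)) ∧
    ∏' i : ℕ, (1 - (1 / 3 : ℝ) ^ (2 * i + 1)) < 0.6391 :=
  Pool.Agent.E8helper20.CTV.final Pool.Agent.E8helper20.CTV.pcs Pool.Agent.E8helper20.CTV.pcv
    Pool.Agent.E8helper87.CN.t_CNT0 K ω hω

end Pool.Agent.Results.MP_9ab903_nt.ThreePartFiveClassesH20
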