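import Pool.Agent.E8helper75.F3.AllF
import Pool.Agent.E8helper75.F3.Cnt
import Pool.Agent.E8helper75.QI.Fin
import Pool.Agent.E8helper79.QI.ExK
import Pool.Agent.Y948.CQ.C2

/-!
# The 2-part of the strong conjecture of Birch and Swinnerton-Dyer over `ℚ(i)` for five classes of quartic
# twists: `y² = x³ + 2 D x` and `y² = x³ + (1 + i)³ C x`

`K` is a number field with an isomorphism `e` of the ring `ℤ[i]` of Gaussian integers with its ring
of integers (so `K = ℚ(i)`). The curves `y² = x³ + a x` with `a = c D`, where `D` is a primary squarefree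
Gaussian integer (the product of a finite set `S` of primary primes) and `c = (1 + i)^j w`, `0 ≤ j ≤ 3`, `w`
a unit, fall into sixteen classes according to `c`. They are the quartic twists of `y² = x³ + x` by the `a`
whose odd part is squarefree. The theorem is about the five classes
* `c = 2`, that is `a = 2 D`, and
* `c = (1 + i)³ w`, `w` any unit, that is `a = (1 + i)³ C` with **any** odd squarefree `C`.

Let `E : y² = x³ + c D x` and `z = L(E/K, 1) √|disc K| #E(K)_tors² / (Ω ∏ c_v)`, which is zero or the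
order of `Ш(E/K)` according to the conjecture. With no hypothesis on the rank or on `Ш` we prove:
* `L(E/K, s)` is entire, the equation of `E` is minimal at all the finite places,
  `∏ c_v = 2 * 2 ^ #S`, and the order of the torsion subgroup is twice an odd number;
* `z` is integral at all the valuations of `ℂ` above two, and it is a unit at one of them iff it is so
  at all of them iff the group `E(K)` is finite and `Ш(E/K)[2]` is zero iff the matrix `mat c S` over
  `𝔽₂` of the quadratic residue symbols is not singular (the implication from algebra to analysis is a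
  2-converse theorem, that from analysis to algebra is the 2-part of the formula);
* in this case `E(K)` is finite, the 2-primary part of `Ш(E/K)` is zero and `L(E/K, 1) ≠ 0`;
* in each of the five classes the proportion of the `D` with this property, ordered by norm, exists and
  is `∏ (1 - 2 ^ (-(2 i + 1))) = 0.4194...`
-/

set_option autoImplicit false

namespace Pool.Agent.Results.MP_9ab903_nt.TwoPartFiveClassesH75

open NumberField IsDedekindDomain
open Pool.Agent.TH841.NF.D (Sha)

/-- `g` is primary: `g ≡ 1` modulo `2 + 2i`. -/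
def Primary (g : GaussianInt) : Prop := (⟨2, 2⟩ : GaussianInt) ∣ g - 1

/-- `c` is one of the five coefficients: `2`, or an associate `(1 + i)³ w` of `(1 + i)³ = -2 + 2 i`. -/
def Coef (c : GaussianInt) : Prop := c = 2 ∨ ∃ w : GaussianInt, IsUnit w ∧ c = ⟨-2, 2⟩ * w

/-- The curve `y² = x³ + a x`, the quartic twist by `a` of the curve `y² = x³ + x`. -/
noncomputable def curve {K : Type} [Field K] [NumberField K] (e : GaussianInt ≃+* 𝓞 K)
    (a : GaussianInt) : WeierstrassCurve K :=
  ⟨0, 0, 0, algebraMap (𝓞 K) K (e a), 0⟩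

open scoped Classical in
/-- The equation `E` is minimal at every finite place `v`, and `c v` is the Tamagawa number of `E` at
`v`: the index in `E(K_v)` of the subgroup of the points of nonsingular reduction. -/
def IsTamagawa {K : Type} [Field K] [NumberField K] (E : WeierstrassCurve K)
    (c : HeightOneSpectrum (𝓞 K) → ℕ) : Prop :=
  (∀ v : HeightOneSpectrum (𝓞 K),
    (E.baseChange (v.adicCompletion K)).IsMinimal (v.adicCompletionIntegers K) ∧
    ∃ H : AddSubgroup (E.baseChange (v.adicCompletion K)).toAffine.Point,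
      (∀ P, P ∈ H ↔ Pool.Agent.Y696.NonsingRed Valued.v (E.baseChange (v.adicCompletion K)) P) ∧
      H.index = c v) ∧
  {v | c v ≠ 1}.Finite

/-- `Λ` is the lattice of periods of the differential `dx / (2y + a₁x + a₃)` of the curve `E`, embedded
in the complex numbers by `σ`. -/
def IsPeriodLattice {K : Type} [Field K] (E : WeierstrassCurve K) (σ : K →+* ℂ)
    (Λ : PeriodPair) : Prop :=
  Λ.g₂ = σ E.c₄ / 12 ∧ Λ.g₃ = σ E.c₆ / 216

/-- Twice the area of a fundamental parallelogram of the lattice. -/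
noncomputable def period (Λ : PeriodPair) : ℝ := 2 * |((starRingEnd ℂ) Λ.ω₁ * Λ.ω₂).im|

open Classical in
/-- The order of the torsion subgroup of `E(K)`. -/
noncomputable def torsOrder {K : Type} [Field K] (E : WeierstrassCurve K) : ℕ :=
  Nat.card (AddCommGroup.torsion E.toAffine.Point)

/-- The order of the Tate-Shafarevich group predicted by the formula in rank zero, for the value `l` of
the L-function at `s = 1`: `l √|disc K| #E(K)_tors² / (Ω ∏ c_v)`. -/
noncomputable def anOrder {K : Type} [Field K] [NumberField K] (E : WeierstrassCurve K) (l : ℂ)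
    (Λ : PeriodPair) (c : HeightOneSpectrum (𝓞 K) → ℕ) : ℂ :=
  l * (Real.sqrt |(discr K : ℝ)| : ℝ) * (torsOrder E : ℂ) ^ 2 /
    ((period Λ : ℂ) * ((∏ᶠ v, c v : ℕ) : ℂ))

/-- `L` is an entire continuation of the L-series of `E`. -/
def IsL {K : Type} [Field K] [NumberField K] (E : WeierstrassCurve K) (L : ℂ → ℂ) : Prop :=
  Differentiable ℂ L ∧ ∀ s : ℂ, 3 / 2 < s.re →
    LSeriesSummable ((fun n : ℤ => (n : ℂ)) ∘ E.LFunction) s ∧ L s = E.LSeries s

open Classical in
/-- `0` if `a` is a square modulo `p`, and `1` if it is not. -/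
noncomputable def nonsq (a p : GaussianInt) : ZMod 2 := if ∃ b : GaussianInt, p ∣ b ^ 2 - a then 0 else 1

/-- The matrix over the field with two elements, with rows and columns indexed by the set `S` of primary
primes of `ℤ[i]`: the entry at `(p, q)` is `nonsq p q` for `p ≠ q`, and the entry at `(p, p)` is the sum
of `nonsq c p` and of the `nonsq p q` for the `q ≠ p` in `S`. -/
noncomputable def mat (c : GaussianInt) (S : Finset GaussianInt) : Matrix S S (ZMod 2) :=
  Matrix.of fun p q =>
    if q = p then nonsq c p + ∑ r ∈ S.erase (p : GaussianInt), nonsq p r else nonsq p q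

/-- The 2-part of the conjecture of Birch and Swinnerton-Dyer for a curve `E` over an imaginary quadratic
field `K`, in the case that the predicted order of `Ш` is a unit above two: `E(K)` is finite, the
2-primary part of `Ш(E/K)` is trivial, `L(E/K, s)` is entire, `L(E/K, 1) ≠ 0`, and the predicted order of
`Ш(E/K)` is a unit at every valuation `w` of the field of complex numbers with `w 2 < 1`. -/
def TwoPart {K : Type} [Field K] [NumberField K] (E : WeierstrassCurve K) : Prop :=
  Finite E.toAffine.Point ∧ (∀ (n : ℕ) (x : Sha E), 2 ^ n • x = 0 → x = 0) ∧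
  ∃ (L : ℂ → ℂ) (c : HeightOneSpectrum (𝓞 K) → ℕ), IsL E L ∧ L 1 ≠ 0 ∧ IsTamagawa E c ∧
    ∀ σ : K →+* ℂ, (∃ Λ : PeriodPair, IsPeriodLattice E σ Λ) ∧
      ∀ Λ : PeriodPair, IsPeriodLattice E σ Λ →
        ∀ (Γ : Type) [LinearOrderedCommGroupWithZero Γ] (w : Valuation ℂ Γ), w 2 < 1 →
          w (anOrder E (L 1) Λ c) = 1

/-- The group `E(K)` is finite and `Ш(E/K)` has no element of order two. -/
def NoSelmer {K : Type} [Field K] [NumberField K] (E : WeierstrassCurve K) : Prop :=
  Finite E.toAffine.Point ∧ ∀ x : Sha E, 2 • x = 0 → x = 0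

/-- The statement for the curve `y² = x³ + c D x`, where `D = ∏ p`, `p ∈ S`. -/
def Criterion {K : Type} [Field K] [NumberField K] (e : GaussianInt ≃+* 𝓞 K) (c : GaussianInt)
    (S : Finset GaussianInt) : Prop :=
  (∃ (L : ℂ → ℂ) (t : HeightOneSpectrum (𝓞 K) → ℕ), IsL (curve e (c * ∏ p ∈ S, p)) L ∧
    IsTamagawa (curve e (c * ∏ p ∈ S, p)) t ∧ ∏ᶠ v, t v = 2 * 2 ^ S.card ∧
    (∃ k : ℕ, Odd k ∧ torsOrder (curve e (c * ∏ p ∈ S, p)) = 2 * k) ∧
    ∀ σ : K →+* ℂ, (∃ Λ : PeriodPair, IsPeriodLattice (curve e (c * ∏ p ∈ S, p)) σ Λ) ∧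
      ∀ Λ : PeriodPair, IsPeriodLattice (curve e (c * ∏ p ∈ S, p)) σ Λ →
        ∀ (Γ : Type) [LinearOrderedCommGroupWithZero Γ] (v : Valuation ℂ Γ), v 2 < 1 →
          v (anOrder (curve e (c * ∏ p ∈ S, p)) (L 1) Λ t) ≤ 1 ∧
          (v (anOrder (curve e (c * ∏ p ∈ S, p)) (L 1) Λ t) = 1 ↔ NoSelmer (curve e (c * ∏ p ∈ S, p)))) ∧
  (NoSelmer (curve e (c * ∏ p ∈ S, p)) ↔ (mat c S).det ≠ 0) ∧
  ((mat c S).det ≠ 0 → TwoPart (curve e (c * ∏ p ∈ S, p)))

/-- The primary squarefree Gaussian integers of norm at most `X`. -/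
def Family (X : ℕ) : Set GaussianInt := {D | D.norm.natAbs ≤ X ∧ Primary D ∧ Squarefree D}

/-- Those `D` such that the 2-part of the conjecture holds for `y² = x³ + c D x` over `K = ℚ(i)` (every
number field `K` with an isomorphism `e` of `ℤ[i]` with its ring of integers), with a predicted order of
`Ш` that is a unit above two. -/
def Proved (c : GaussianInt) (X : ℕ) : Set GaussianInt :=
  {D | D ∈ Family X ∧ ∀ (K : Type) [Field K] [NumberField K] (e : GaussianInt ≃+* 𝓞 K),
    TwoPart (curve e (c * D))}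

section proof

open Pool.Agent.E8helper75.F3
open Pool.Agent.E8helper75.F3.C (Us mem_Us Us_card coef_Us exists_wS good_card)
open Pool.Agent.Y697.MQ (OP Pr_iff leg leg_mul leg_sq_eq)
open Pool.Agent.Y697.PP (SS mem_SS NS prod_inj Dt)

lemma op_iff (p : GaussianInt) : Prime p ∧ Primary p ↔ OP p :=
  ⟨fun h => ⟨h.1, (Pr_iff p).2 h.2⟩, fun h => ⟨h.pr, (Pr_iff p).1 h.pm⟩⟩

lemma nonsq_eq {a p : GaussianInt} (h : ¬ p ∣ a) : nonsq a p = if leg p a = -1 then 1 else 0 := by
  unfold nonsq leg
  rw [if_neg h]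
  by_cases h1 : ∃ b : GaussianInt, p ∣ b ^ 2 - a
  · rw [if_pos h1, if_pos h1, if_neg (by norm_num)]
  · rw [if_neg h1, if_neg h1, if_pos rfl]

lemma nonsq_two {p : GaussianInt} (hp : OP p) : nonsq 2 p = nonsq ⟨0, 1⟩ p := by
  have hi : ¬ p ∣ (⟨0, 1⟩ : GaussianInt) := fun h => hp.pr.not_isUnit
      (isUnit_of_dvd_unit h (IsUnit.of_mul_eq_one (⟨0, -1⟩ : GaussianInt) (by decide)))
  have hpi : ¬ p ∣ (⟨1, -1⟩ : GaussianInt) := by
    intro h
    have h1 : p ∣ Pool.Agent.Y699.pi1 := by
      have h2 : Pool.Agent.Y699.pi1 = ⟨1, -1⟩ * ⟨0, 1⟩ := by decide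
      rw [h2]
      exact h.mul_right _
    exact Pool.Agent.E8helper21.QT.pi1_ndvd (Pool.Agent.R428.G.toPP hp) h1
  have h2 : (2 : GaussianInt) = ⟨0, 1⟩ * (⟨1, -1⟩ * ⟨1, -1⟩) := by decide
  have hnd : ¬ p ∣ (2 : GaussianInt) := by
    rw [h2]
    intro h
    rcases hp.pr.dvd_or_dvd h with h1 | h1
    · exact hi h1
    · rcases hp.pr.dvd_or_dvd h1 with h3 | h3 <;> exact hpi h3
  rw [nonsq_eq hnd, nonsq_eq hi]
  have e : leg p 2 = leg p ⟨0, 1⟩ := by
    rw [h2, leg_mul hp.pr, leg_mul hp.pr, leg_sq_eq hpi, mul_one]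
  rw [e]

lemma mat_two {S : Finset GaussianInt} (hS : ∀ l ∈ S, OP l) :
    mat 2 S = Pool.Agent.E8helper75.QI.C.mat S := by
  ext p q
  unfold mat Pool.Agent.E8helper75.QI.C.mat
  rw [Matrix.of_apply, Matrix.of_apply]
  by_cases h : q = p
  · rw [if_pos h, if_pos h, nonsq_two (hS p p.2)]
    rfl
  · rw [if_neg h, if_neg h]
    rfl

theorem criterion {K : Type} [Field K] [NumberField K] (e : GaussianInt ≃+* 𝓞 K) {c : GaussianInt}
    (hc : Coef c) {S : Finset GaussianInt} (hS : ∀ l ∈ S, OP l) : Criterion e c S := by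
  rcases hc with rfl | ⟨w, hw, rfl⟩
  · have h := Pool.Agent.E8helper75.QI.C.crit_2 e hS
    unfold Pool.Agent.E8helper75.QI.C.Criterion at h
    rw [if_pos rfl, ← mat_two hS] at h
    exact h
  · exact all_crit e (coef_Us (mem_Us.2 hw)) hS

theorem family_eq (X : ℕ) : Family X =
    (((SS X).image fun S => ∏ p ∈ S, p : Finset GaussianInt) : Set GaussianInt) := by
  classical
  ext D
  rw [Finset.mem_coe, Finset.mem_image]
  constructor
  · rintro ⟨h1, h2, h3⟩
    obtain ⟨T, hT, e, he, hDe⟩ := Pool.Agent.Y697.MQ.exists_ker2 D ((Pr_iff D).2 h2)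
    have he1 : e = 1 := by
      apply he.unit
      apply h3 e
      rw [hDe, pow_two]
      exact dvd_mul_left _ _
    rw [he1, one_pow, mul_one] at hDe
    refine ⟨T, mem_SS.2 ⟨fun p hp => (hT p hp).1, ?_⟩, hDe.symm⟩
    unfold NS
    rw [← hDe]
    exact h1
  · rintro ⟨S, hS, rfl⟩
    rw [mem_SS] at hS
    exact ⟨hS.2, (Pr_iff _).1 (Pool.Agent.Y697.MQ.Pr_prod fun x hx => (hS.1 x hx).pm),
      Pool.Agent.R428.G.sqf_prod hS.1⟩

theorem family_card (X : ℕ) : (Family X).ncard = (SS X).card := by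
  classical
  rw [family_eq, Set.ncard_coe_finset, Finset.card_image_of_injOn]
  intro S hS T hT h
  rw [Finset.mem_coe, mem_SS] at hS hT
  exact prod_inj hS.1 hT.1 h

open scoped Classical in
theorem proved_card {c : GaussianInt} (hc : Coef c) (X : ℕ) :
    (Proved c X).ncard = ((SS X).filter fun S => (mat c S).det ≠ 0).card := by
  have h1 : Proved c X = ((((SS X).filter fun S => (mat c S).det ≠ 0).image fun S => ∏ p ∈ S, p :
      Finset GaussianInt) : Set GaussianInt) := by
    ext D
    rw [Finset.mem_coe, Finset.mem_image]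
    constructor
    · rintro ⟨h1, h2⟩
      rw [family_eq, Finset.mem_coe, Finset.mem_image] at h1
      obtain ⟨S, hS, rfl⟩ := h1
      refine ⟨S, ?_, rfl⟩
      rw [Finset.mem_filter]
      refine ⟨hS, ?_⟩
      rw [mem_SS] at hS
      obtain ⟨g1, g2, -⟩ := h2 Pool.Agent.E8helper21.QT.GF Pool.Agent.E8helper21.QT.eGF
      exact (criterion Pool.Agent.E8helper21.QT.eGF hc hS.1).2.1.1
        ⟨g1, fun x hx => g2 1 x (by rw [pow_one]; exact hx)⟩
    · rintro ⟨S, hS, rfl⟩
      rw [Finset.mem_filter] at hS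
      refine ⟨?_, fun K _ _ e => ?_⟩
      · rw [family_eq, Finset.mem_coe, Finset.mem_image]
        exact ⟨S, hS.1, rfl⟩
      · exact (criterion e hc (mem_SS.1 hS.1).1).2.2 hS.2
  rw [h1, Set.ncard_coe_finset, Finset.card_image_of_injOn]
  intro S hS T hT h
  rw [Finset.mem_coe, Finset.mem_filter, mem_SS] at hS hT
  exact prod_inj hS.1.1 hT.1.1 h

theorem limit {c : GaussianInt} (hc : Coef c) :
    Filter.Tendsto (fun X : ℕ => ((Proved c X).ncard : ℝ) / ((Family X).ncard : ℝ)) Filter.atTop
      (nhds (∏' i : ℕ, (1 - (1 / 2 : ℝ) ^ (2 * i + 1)))) := by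
  classical
  rcases id hc with h | ⟨w, hw, h⟩
  · have h0 := Pool.Agent.E8helper79.QI.t_EXK
    unfold Pool.Agent.E8helper75.QI.S_EXK at h0
    refine h0.congr fun X => ?_
    rw [family_card, proved_card hc]
    congr 2
    congr 1
    refine Finset.filter_congr fun S hS => ?_
    rw [mem_SS] at hS
    rw [h, mat_two hS.1, Pool.Agent.E8helper75.QI.C.mat_eq hS.1]
    rfl
  · refine Pool.Agent.E8helper75.F3D.exact.congr fun X => ?_
    rw [family_card, proved_card hc]
    congr 2
    have h3 := good_card a_THR a_SUP3 (coef_Us (mem_Us.2 hw)) X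
    rw [← h3, h]
    rfl

end proof

open Pool.Agent.E8helper75.F3 in
/-- **Main theorem.** For the five coefficients `c` (`2` and the associates of `(1 + i)³`) and every finite
set `S` of primary primes the statement `Criterion` holds for `y² = x³ + c D x`, `D = ∏ p`; every odd
squarefree Gaussian integer `C` is a unit `w` times such a `D`, so that the curves with `c = (1 + i)³ w` are
the curves `y² = x³ + (1 + i)³ C x` with `C` odd and squarefree; and for each of the five `c` the proportion
of the primary squarefree `D` of norm at most `X` that satisfy `TwoPart` tends to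
`∏ (1 - 2 ^ (-(2 i + 1))) = 0.4194...` as `X` grows. -/
theorem result :
    (∀ (K : Type) [Field K] [NumberField K] (e : GaussianInt ≃+* 𝓞 K) (c : GaussianInt)
      (S : Finset GaussianInt), Coef c → (∀ p ∈ S, Prime p ∧ Primary p) → Criterion e c S) ∧
    (∀ C : GaussianInt, ¬ (⟨1, 1⟩ : GaussianInt) ∣ C → Squarefree C →
      ∃ (w : GaussianInt) (S : Finset GaussianInt), IsUnit w ∧ (∀ p ∈ S, Prime p ∧ Primary p) ∧
        C = w * ∏ p ∈ S, p) ∧
    (∀ c : GaussianInt, Coef c →
      Filter.Tendsto (fun X : ℕ => ((Proved c X).ncard : ℝ) / ((Family X).ncard : ℝ)) Filter.atTop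
        (nhds (∏' i : ℕ, (1 - (1 / 2 : ℝ) ^ (2 * i + 1))))) ∧
    (0.4194 : ℝ) < ∏' i : ℕ, (1 - (1 / 2 : ℝ) ^ (2 * i + 1)) ∧
    ∏' i : ℕ, (1 - (1 / 2 : ℝ) ^ (2 * i + 1)) < (0.4195 : ℝ) := by
  refine ⟨fun K _ _ e c S hc hS => criterion e hc fun p hp => (op_iff p).1 (hS p hp),
    fun C h1 h2 => ?_, fun c hc => limit hc, Pool.Agent.Y948.CQ.t_C2.2.2.2⟩
  obtain ⟨w, S, hw, hS, hC⟩ := Pool.Agent.E8helper75.F3.C.exists_wS h1 h2
  exact ⟨w, S, hw, fun p hp => (op_iff p).2 (hS p hp), hC⟩

end Pool.Agent.Results.MP_9ab903_nt.TwoPartFiveClassesH75
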