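import Pool.Agent.E8helper76.SQ.Dn4

/-!
# The 2-part of the strong conjecture of Birch and Swinnerton-Dyer for the twists of `X_0(49)` over the
# quadratic extensions of `ℚ(√-7)`

`K = ℚ(√-7)` (a number field of degree two with an integer `a` such that `a² = a - 2`, so that
`√-7 = 2 a - 1`), and `E_D : y² + x y = x³ - (3 D + 1) / 4 x² - 2 D² x - D³` is the quadratic twist by `D` of
the curve `y² + x y = x³ - x² - 2 x - 1` of conductor `49`.  `D` and `d ≠ 1` are coprime squarefree integers of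
`K`, congruent to `1` modulo `4` and prime to `√-7`, and `L = K(√d)`.  So `L` is a number field of degree four
(in general not Galois over `ℚ`) and `E_D` is a curve over `L`; let
`z = L(E_D/L, 1) √|disc L| #E_D(L)_tors² / (Ω ∏ c_w)`, where `Ω` is the product of the periods of the two
complex places, and let `n` be the number of the prime ideals of `K` that divide `d` (those that ramify in `L`)
and `i` the number of those that divide `√-7 D` and modulo which `d` is not a square (they are inert in `L`).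
With no hypothesis on the rank, on `Ш` or on the `L`-function over `L` we prove:

* `L(E_D/L, s)` is entire, the equation is minimal at all the finite places of `L`, `∏ c_w = 4 ^ (2 j - i)` if
  `j` prime ideals of `K` divide `√-7 D`, the order of the torsion group is four times an odd number, and
  `disc L` is odd;
* `16 z / 4 ^ (n + i)` is integral at all the valuations of `ℂ` above two, and it is a unit at one of them iff
  it is so at all of them iff the two groups `E_D(K)` and `E_{Dd}(K)` are finite and `Ш(E_D/K)[2]` and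
  `Ш(E_{Dd}/K)[2]` are zero (equivalently: two explicit matrices of quadratic residue symbols are not singular);
* in this case `E_D(L)` is finite, `L(E_D/L, 1) ≠ 0`, the 2-primary part of `Ш(E_D/L)` is killed by `2`, it has
  exactly `4 ^ (n + i - 2)` elements, so it is nontrivial as soon as `n + i > 2`, and this is the 2-part of `z`:
  the 2-part of the strong conjecture of Birch and Swinnerton-Dyer for `E_D` over `L`;
* for any finite set of `m` fields `L` this happens at the same time for all of them, with groups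
  `Ш(E_D/L)[2^∞]` of order at least `(log X) ^ (2/5)`, for a proportion of exactly `c2 ^ (m + 1)` of the `D`
  of norm at most `X`, where `c2 = ∏_{i ≥ 1} (1 - 2^(-i)) = 0.288...`;
* for any finite set of `m` curves `E_D` with `E_D(K)` finite and `Ш(E_D/K)[2] = 0`, for example the curve of
  conductor `49` itself, this happens at the same time for all of them, with groups `Ш(E_D/L)[2^∞]` of order
  at least `(log X) ^ (2/5)`, for a proportion of exactly `c2 ^ m` of the fields `L = K(√d)`, `d` of norm at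
  most `X`.

Proof.  Over `K` the values at `s = 1` and the criterion are in `MP_e996df_nt/TwoPartTwistsX49`.  Over `L` the
order of `Ш(E_D/L)[2]` is found by a descent (`Pool/Agent/E8helper76/SQ`): the norms to `K` of the classes of
order two that are everywhere locally trivial are locally trivial for `E_D` or `E_{Dd}` over `K`, hence
squares, so the classes come from `K`; they are given by the products of the prime divisors of `√-7 D d` and of
units with conditions at the places of `L` of degree one above the divisors of `√-7 D` only, which are then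
solved by linear algebra over `𝔽₂` in terms of the two nonsingular matrices; conversely all the solutions are
locally trivial at all the places of `L`.  The exponent of the 2-primary part is bounded by corestriction.  The
Euler factors of `L(E_D/L, s)` are computed at all the places from the numbers of points over the residue
fields (with two, four, `q` and `q²` elements), and the discriminant from the relative different.  The
proportions follow from the joint law of the matrices (`Pool/Agent/R426/QJ`), the size of `Ш` from mean values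
of multiplicative functions twisted by real characters (`Pool/Agent/R426/QK`).
-/

set_option autoImplicit false

namespace Pool.Agent.Results.MP_9ab903_nt.TwoPartRelQuadX49H76

open NumberField IsDedekindDomain
open Pool.Agent.TH841.NF.D (Sha)

/-- The quadratic twist by `D` of the curve `y² + x y = x³ - x² - 2 x - 1` of conductor `49`. -/
noncomputable def curve {K : Type} [Field K] (D : K) : WeierstrassCurve K :=
  ⟨1, -(3 * D + 1) / 4, 0, -2 * D ^ 2, -D ^ 3⟩

/-- The conditions on `D`: it is a squarefree integer of `K = ℚ(√-7)`, congruent to `1` modulo `4` and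
prime to `√-7 = 2 a - 1`. -/
def InClass {K : Type} [Field K] (a D : 𝓞 K) : Prop :=
  Squarefree D ∧ (4 : 𝓞 K) ∣ D - 1 ∧ ¬ (2 * a - 1) ∣ D

/-- The group `E(K)` is finite and `Ш(E/K)` has no element of order two. -/
def NoSelmer {K : Type} [Field K] [NumberField K] (E : WeierstrassCurve K) : Prop :=
  Finite E.toAffine.Point ∧ ∀ x : Sha E, 2 • x = 0 → x = 0

open scoped Classical in
/-- The equation `E` is minimal at every finite place `v`, and `c v` is the Tamagawa number of `E` at
`v`: the index in `E(L_v)` of the subgroup of the points of nonsingular reduction. -/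
def IsTamagawa {L : Type} [Field L] [NumberField L] (E : WeierstrassCurve L)
    (c : HeightOneSpectrum (𝓞 L) → ℕ) : Prop :=
  (∀ v : HeightOneSpectrum (𝓞 L),
    (E.baseChange (v.adicCompletion L)).IsMinimal (v.adicCompletionIntegers L) ∧
    ∃ H : AddSubgroup (E.baseChange (v.adicCompletion L)).toAffine.Point,
      (∀ P, P ∈ H ↔ Pool.Agent.Y696.NonsingRed Valued.v (E.baseChange (v.adicCompletion L)) P) ∧
      H.index = c v) ∧
  {v | c v ≠ 1}.Finite

/-- `Λ v` is, for each infinite place `v` of the field, the lattice of periods of the differential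
`dx / (2y + a₁x + a₃)` of the curve `E`, embedded in the complex numbers by the embedding of `v`. -/
def ArePeriodLattices {L : Type} [Field L] [NumberField L] (E : WeierstrassCurve L)
    (Λ : InfinitePlace L → PeriodPair) : Prop :=
  ∀ v, (Λ v).g₂ = v.embedding E.c₄ / 12 ∧ (Λ v).g₃ = v.embedding E.c₆ / 216

/-- Twice the area of a fundamental parallelogram of the lattice. -/
noncomputable def period (Λ : PeriodPair) : ℝ := 2 * |((starRingEnd ℂ) Λ.ω₁ * Λ.ω₂).im|

open Classical in
/-- The order of the torsion subgroup of `E(L)`. -/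
noncomputable def torsOrder {L : Type} [Field L] (E : WeierstrassCurve L) : ℕ :=
  Nat.card (AddCommGroup.torsion E.toAffine.Point)

/-- The order of the Tate-Shafarevich group predicted by the formula in rank zero over a totally complex
field `L`, for the value `l` of the L-function at `s = 1`: `l √|disc L| #E(L)_tors² / (Ω ∏ c_v)`, where `Ω` is
the product of the periods at the infinite places. -/
noncomputable def anOrder {L : Type} [Field L] [NumberField L] (E : WeierstrassCurve L) (l : ℂ)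
    (Λ : InfinitePlace L → PeriodPair) (c : HeightOneSpectrum (𝓞 L) → ℕ) : ℂ :=
  l * (Real.sqrt |(discr L : ℝ)| : ℝ) * (torsOrder E : ℂ) ^ 2 /
    (((∏ v, period (Λ v) : ℝ) : ℂ) * ((∏ᶠ w, c w : ℕ) : ℂ))

/-- `F` is an entire continuation of the L-series of `E`. -/
def IsL {L : Type} [Field L] [NumberField L] (E : WeierstrassCurve L) (F : ℂ → ℂ) : Prop :=
  Differentiable ℂ F ∧ ∀ s : ℂ, 3 / 2 < s.re →
    LSeriesSummable ((fun n : ℤ => (n : ℂ)) ∘ E.LFunction) s ∧ F s = E.LSeries s

/-- The number of the elements of the 2-primary part of `Ш(E/L)` (zero if there are infinitely many). -/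
noncomputable def shaTwo {L : Type} [Field L] [NumberField L] (E : WeierstrassCurve L) : ℕ :=
  Nat.card {x : Sha E // ∃ k : ℕ, 2 ^ k • x = 0}

/-- The 2-part of the strong conjecture for the curve `E` over a totally complex number field `L`, in rank
zero: `E(L)` is finite, the 2-primary part of `Ш(E/L)` is finite, `L(E/L, s)` is entire,
`L(E/L, 1) ≠ 0`, and the order of `Ш` predicted by the formula and the order of the 2-primary part of
`Ш(E/L)` have the same value at every valuation `w` of the field of complex numbers with `w 2 < 1`. -/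
def TwoPart {L : Type} [Field L] [NumberField L] (E : WeierstrassCurve L) : Prop :=
  Finite E.toAffine.Point ∧ shaTwo E ≠ 0 ∧
  ∃ (F : ℂ → ℂ) (c : HeightOneSpectrum (𝓞 L) → ℕ), IsL E F ∧ F 1 ≠ 0 ∧ IsTamagawa E c ∧
    (∃ Λ, ArePeriodLattices E Λ) ∧ ∀ Λ, ArePeriodLattices E Λ →
      ∀ (Γ : Type) [LinearOrderedCommGroupWithZero Γ] (w : Valuation ℂ Γ), w 2 < 1 →
        w (anOrder E (F 1) Λ c) = w (shaTwo E : ℂ)

/-- The number of the prime ideals of `K` that divide `d`. -/
noncomputable def numDivisors {K : Type} [Field K] [NumberField K] (d : 𝓞 K) : ℕ :=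
  Nat.card {v : HeightOneSpectrum (𝓞 K) // d ∈ v.asIdeal}

/-- The number of the prime ideals of `K` that divide `M` and modulo which `d` is not a square. -/
noncomputable def numInert {K : Type} [Field K] [NumberField K] (M d : 𝓞 K) : ℕ :=
  Nat.card {v : HeightOneSpectrum (𝓞 K) // M ∈ v.asIdeal ∧ ∀ b : 𝓞 K, b ^ 2 - d ∉ v.asIdeal}

/-- `NoSelmer` over `K` for the twists by `D` and by `D d`. -/
def GoodPair {K : Type} [Field K] [NumberField K] (D d : 𝓞 K) : Prop :=
  NoSelmer (curve (D : K)) ∧ NoSelmer (curve ((D * d : 𝓞 K) : K))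

/-- The statement for the curve `E = E_D` over `L = K(√d)`, with the number `i` of the prime ideals of `K`
that divide `√-7 D` and are inert in `L`. -/
def Criterion {K : Type} [Field K] [NumberField K] (D d : 𝓞 K) (i : ℕ) {L : Type} [Field L]
    [NumberField L] (E : WeierstrassCurve L) : Prop :=
  (∃ (F : ℂ → ℂ) (c : HeightOneSpectrum (𝓞 L) → ℕ), IsL E F ∧ IsTamagawa E c ∧
    (∏ᶠ v, c v) * 4 ^ i = 16 ^ (numDivisors D + 1) ∧
    (∃ t : ℕ, Odd t ∧ torsOrder E = 4 * t) ∧ Odd (discr L) ∧ (∃ Λ, ArePeriodLattices E Λ) ∧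
    ∀ Λ, ArePeriodLattices E Λ →
      ∀ (Γ : Type) [LinearOrderedCommGroupWithZero Γ] (w : Valuation ℂ Γ), w 2 < 1 →
        w (16 * anOrder E (F 1) Λ c) ≤ w (4 ^ (numDivisors d + i)) ∧
        (w (16 * anOrder E (F 1) Λ c) = w (4 ^ (numDivisors d + i)) ↔ GoodPair D d)) ∧
  (GoodPair D d → TwoPart E ∧ 16 * shaTwo E = 4 ^ (numDivisors d + i) ∧
    ∀ (k : ℕ) (x : Sha E), 2 ^ k • x = 0 → 2 • x = 0)

/-- The elements of norm at most `X` that satisfy the conditions and are prime to all the elements of `T`. -/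
def family {K : Type} [Field K] [NumberField K] (a : 𝓞 K) (T : Finset (𝓞 K)) (X : ℕ) : Set (𝓞 K) :=
  {D | Ideal.absNorm (Ideal.span {D}) ≤ X ∧ InClass a D ∧ ∀ d ∈ T, IsCoprime D d}

/-- `GoodPair`, with at least `(log X) ^ (2 / 5)` elements of the 2-primary part of `Ш(E_D/K(√d))`. -/
def GoodLarge {K : Type} [Field K] [NumberField K] (a : 𝓞 K) (X : ℕ) (D d : 𝓞 K) : Prop :=
  GoodPair D d ∧ Real.log X ^ (2 / 5 : ℝ) ≤ 4 ^ (numDivisors d + numInert ((2 * a - 1) * D) d) / 16

/-- The product `(1 - 1/2) (1 - 1/4) (1 - 1/8) ⋯`. -/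
noncomputable def c2 : ℝ := ∏' i : ℕ, (1 - (1 / 2 : ℝ) ^ (i + 1))

section proof

open Filter
open Pool.Agent.E8helper76
open Pool.Agent.Results.MP_e996df_nt

variable {K : Type} [Field K] [NumberField K]

/-- the extensions -/
theorem extension {a : 𝓞 K} (ha : a ^ 2 = a - 2) (hK : Module.finrank ℚ K = 2) {D d : 𝓞 K}
    (hD : InClass a D) (hd : InClass a d) (hc : IsCoprime D d) (hd1 : d ≠ 1) (L : Type) [Field L]
    [NumberField L] [Algebra K L] (hdeg : Module.finrank K L = 2) (x : L)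
    (hx : x ^ 2 = algebraMap K L (d : K)) :
    Criterion D d (numInert ((2 * a - 1) * D) d) (curve (algebraMap K L (D : K))) := by
  obtain ⟨F, c, h1, h2, h8, h3, h4, h5, h6, h7⟩ := SQ.core ha hK hD hd hc hd1 hdeg hx
  have h4' : Odd (discr L) := Int.natAbs_odd.1 h4
  refine ⟨⟨F, c, h1, h2, h8, h3, h4', h5, h6⟩, fun hg => ?_⟩
  obtain ⟨q1, q2, q3, q4⟩ := h7 hg.1 hg.2
  have q4' : 16 * shaTwo (curve (algebraMap K L (D : K))) =
      4 ^ (numDivisors d + numInert ((2 * a - 1) * D) d) := q4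
  have hne : shaTwo (curve (algebraMap K L (D : K))) ≠ 0 := by
    intro h0
    rw [h0, mul_zero] at q4'
    exact (pow_ne_zero _ (by norm_num)) q4'.symm
  refine ⟨⟨q1, hne, F, c, h1, q2, h2, h5, fun Λ hΛ Γ _ w hw => ?_⟩, q4', q3⟩
  have k1 := ((h6 Λ hΛ Γ w hw).2).2 hg
  have k2 : (4 : ℂ) ^ (numDivisors d + numInert ((2 * a - 1) * D) d) =
      16 * (shaTwo (curve (algebraMap K L (D : K))) : ℂ) := by
    have := congrArg (fun n : ℕ => (n : ℂ)) q4'
    push_cast at this
    exact this.symm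
  have k3 : w (16 * anOrder (curve (algebraMap K L (D : K))) (F 1) Λ c) =
      w (16 * (shaTwo (curve (algebraMap K L (D : K))) : ℂ)) := by
    rw [← k2]
    exact k1
  rw [map_mul, map_mul] at k3
  exact mul_left_cancel₀ ((Valuation.ne_zero_iff _).2 (by norm_num)) k3

lemma units_pm {a : 𝓞 K} (ha : a ^ 2 = a - 2) (hK : Module.finrank ℚ K = 2) {u : 𝓞 K}
    (hu : IsUnit u) : u ^ 2 = 1 := by
  obtain ⟨e, -, -⟩ := TwoPartTwistsX49.exists_e ha hK
  have hu' : IsUnit (e.symm u) := (isUnit_map_iff e.symm u).2 hu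
  rcases Pool.Agent.Y698.isUnit_iff.1 hu' with h3 | h3
  · have h4 : u = 1 := by rw [← e.apply_symm_apply u, h3, map_one]
    rw [h4, one_pow]
  · have h4 : u = -1 := by rw [← e.apply_symm_apply u, h3, map_neg, map_one]
    rw [h4]
    ring

lemma eq_of_sq {a : 𝓞 K} (ha : a ^ 2 = a - 2) (hK : Module.finrank ℚ K = 2) {D N c : 𝓞 K}
    (hD : Squarefree D) (h : D = N * c ^ 2) : D = N := by
  have hu : IsUnit c := hD c ⟨N, by rw [h]; ring⟩
  rw [h, units_pm ha hK hu, mul_one]

lemma mul_inClass {a : 𝓞 K} (ha : a ^ 2 = a - 2) (hK : Module.finrank ℚ K = 2) {D d : 𝓞 K}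
    (hD : InClass a D) (hd : InClass a d) (hc : IsCoprime D d) : InClass a (D * d) := by
  obtain ⟨e, -, hef⟩ := TwoPartTwistsX49.exists_e ha hK
  exact SQ.InCl.mul hef hD hd hc

omit [NumberField K] in
/-- a subset whose complement has density zero -/
lemma density_sub {F G B H : ℕ → Set (𝓞 K)} {c δ : ℝ} (hδ : 0 < δ)
    (hfin : ∀ X, (F X).Finite) (hG : ∀ X, G X ⊆ F X)
    (h1 : Tendsto (fun X : ℕ => ((G X).ncard : ℝ) / ((F X).ncard : ℝ)) atTop (nhds c))
    (h2 : ∀ᶠ X : ℕ in atTop, δ * X ≤ ((G X).ncard : ℝ))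
    (hB : ∀ ε : ℝ, 0 < ε → ∀ᶠ X : ℕ in atTop, ((B X).ncard : ℝ) ≤ ε * X)
    (hBf : ∀ X, (B X).Finite) (hH : ∀ X, H X ⊆ G X) (hHB : ∀ X, G X ⊆ H X ∪ B X) :
    Tendsto (fun X : ℕ => ((H X).ncard : ℝ) / ((F X).ncard : ℝ)) atTop (nhds c) ∧
      ∀ᶠ X : ℕ in atTop, δ / 2 * X ≤ ((H X).ncard : ℝ) := by
  have hle : ∀ X, (G X).ncard ≤ (H X).ncard + (B X).ncard := fun X =>
    (Set.ncard_le_ncard (hHB X) (((hfin X).subset ((hH X).trans (hG X))).union (hBf X))).trans
      (Set.ncard_union_le _ _)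
  have hge : ∀ X, (H X).ncard ≤ (G X).ncard := fun X =>
    Set.ncard_le_ncard (hH X) ((hfin X).subset (hG X))
  have hGF : ∀ X, (G X).ncard ≤ (F X).ncard := fun X => Set.ncard_le_ncard (hG X) (hfin X)
  have h3 : Tendsto (fun X : ℕ => ((B X).ncard : ℝ) / ((F X).ncard : ℝ)) atTop (nhds 0) := by
    rw [Metric.tendsto_nhds]
    intro ε hε
    filter_upwards [h2, hB (ε * δ / 2) (by positivity), eventually_ge_atTop 1] with X k1 k2 k3
    have hX : (0 : ℝ) < X := by exact_mod_cast k3
    have k4 : (0 : ℝ) < ((F X).ncard : ℝ) :=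
      lt_of_lt_of_le (lt_of_lt_of_le (by positivity) k1) (by exact_mod_cast hGF X)
    rw [Real.dist_eq, sub_zero, abs_of_nonneg (by positivity), div_lt_iff₀ k4]
    have k5 : δ * X ≤ ((F X).ncard : ℝ) := k1.trans (by exact_mod_cast hGF X)
    nlinarith [mul_le_mul_of_nonneg_left k5 hε.le, mul_pos hε k4]
  constructor
  · have h4 := h1.sub h3
    rw [sub_zero] at h4
    refine tendsto_of_tendsto_of_tendsto_of_le_of_le h4 h1 (fun X => ?_) (fun X => ?_)
    · show _ / _ - _ / _ ≤ _ / _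
      rw [← sub_div]
      apply div_le_div_of_nonneg_right _ (Nat.cast_nonneg _)
      have h5 : ((G X).ncard : ℝ) ≤ ((H X).ncard : ℝ) + ((B X).ncard : ℝ) := by
        exact_mod_cast hle X
      linarith
    · exact div_le_div_of_nonneg_right ((Nat.cast_le (α := ℝ)).2 (hge X)) (Nat.cast_nonneg _)
  · filter_upwards [h2, hB (δ / 2) (by positivity)] with X k1 k2
    have h5 : ((G X).ncard : ℝ) ≤ ((H X).ncard : ℝ) + ((B X).ncard : ℝ) := by
      exact_mod_cast hle X
    linarith

lemma finite_norm {a : 𝓞 K} (X : ℕ) (ha : a ^ 2 = a - 2) (hK : Module.finrank ℚ K = 2) :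
    {D : 𝓞 K | Ideal.absNorm (Ideal.span {D}) ≤ X}.Finite := by
  obtain ⟨e, -, -⟩ := TwoPartTwistsX49.exists_e ha hK
  refine ((Pool.Agent.R426.QK.fin_norm_le X).image e).subset fun D hD => ?_
  refine ⟨e.symm D, ?_, e.apply_symm_apply D⟩
  show Pool.Agent.R426.QK.nrm (e.symm D) ≤ X
  rw [← Pool.Agent.R426.QK.absNorm_e e, e.apply_symm_apply]
  exact hD

omit [NumberField K] in
/-- finite unions of small sets -/
lemma small_union {ι : Type} (T : Finset ι) (B : ι → ℕ → Set (𝓞 K))
    (hB : ∀ i ∈ T, ∀ ε : ℝ, 0 < ε → ∀ᶠ X : ℕ in atTop, ((B i X).ncard : ℝ) ≤ ε * X) :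
    ∀ ε : ℝ, 0 < ε → ∀ᶠ X : ℕ in atTop, (({D | ∃ i ∈ T, D ∈ B i X}.ncard : ℕ) : ℝ) ≤ ε * X := by
  classical
  induction T using Finset.induction_on with
  | empty =>
    intro ε hε
    filter_upwards with X
    have h1 : {D : 𝓞 K | ∃ i ∈ (∅ : Finset ι), D ∈ B i X} = ∅ := by
      ext D
      simp
    rw [h1, Set.ncard_empty, Nat.cast_zero]
    positivity
  | insert j T hj ih =>
    intro ε hε
    filter_upwards [ih (fun i hi => hB i (Finset.mem_insert_of_mem hi)) (ε / 2) (by positivity),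
      hB j (Finset.mem_insert_self _ _) (ε / 2) (by positivity)] with X h1 h2
    have h3 : {D : 𝓞 K | ∃ i ∈ insert j T, D ∈ B i X} = {D | ∃ i ∈ T, D ∈ B i X} ∪ B j X := by
      ext D
      simp only [Set.mem_ofPred_eq, Set.mem_union, Finset.mem_insert]
      constructor
      · rintro ⟨i, hi | hi, h⟩
        · exact Or.inr (hi ▸ h)
        · exact Or.inl ⟨i, hi, h⟩
      · rintro (⟨i, hi, h⟩ | h)
        · exact ⟨i, Or.inr hi, h⟩
        · exact ⟨j, Or.inl rfl, h⟩
    have h4 : (({D | ∃ i ∈ T, D ∈ B i X} ∪ B j X).ncard : ℝ) ≤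
        ({D | ∃ i ∈ T, D ∈ B i X}.ncard : ℝ) + ((B j X).ncard : ℝ) := by
      exact_mod_cast Set.ncard_union_le _ _
    rw [h3]
    linarith

/-- the criterion in terms of the library -/
lemma noSelmer_iff {a : 𝓞 K} (ha : a ^ 2 = a - 2) (hK : Module.finrank ℚ K = 2)
    (e : Pool.Agent.Y698.RR ≃+* 𝓞 K) (hea : e Pool.Agent.Y698.aR = a)
    (hef : e Pool.Agent.Y698.fR = 2 * a - 1) {x : Pool.Agent.Y698.RR} (hx : InClass a (e x)) :
    NoSelmer (curve ((e x : 𝓞 K) : K)) ↔ Pool.Agent.R426.QK.Gd (Pool.Agent.R426.QK.PD x) := by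
  classical
  obtain ⟨S, -, -, hC⟩ := TwoPartTwistsX49.criterion ha hK hx.2.1 hx.1 hx.2.2
  have h1 : NoSelmer (curve ((e x : 𝓞 K) : K)) ↔
      TwoPartTwistsX49.TwoPart (curve ((e x : 𝓞 K) : K)) :=
    ⟨fun h => hC.2.2 (hC.2.1.1 h), fun h => h.noSelmer⟩
  have h2 := TwoPartTwistsX49.good_e e ha hK hea hef x
  have hxn : Pool.Agent.R426.QK.ClsE x := (TwoPartTwistsX49.cls_e e hef x).1 hx
  rw [h1]
  exact ⟨fun h => (h2.1 ⟨hx, h⟩).2, fun h => (h2.2 ⟨hxn, h⟩).2⟩

lemma noSelmer_mul {a : 𝓞 K} (ha : a ^ 2 = a - 2) (hK : Module.finrank ℚ K = 2)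
    (e : Pool.Agent.Y698.RR ≃+* 𝓞 K) (hea : e Pool.Agent.Y698.aR = a)
    (hef : e Pool.Agent.Y698.fR = 2 * a - 1) {x : Pool.Agent.Y698.RR} {d : 𝓞 K}
    (hx : InClass a (e x)) (hd : InClass a d) (hc : IsCoprime (e x) d) :
    NoSelmer (curve ((e x * d : 𝓞 K) : K)) ↔ Pool.Agent.R426.QK.Gd
      (Pool.Agent.R426.QK.PD x ∪ Pool.Agent.R426.QK.PD (e.symm d)) := by
  have e1 : e x * d = e (x * e.symm d) := by rw [map_mul, e.apply_symm_apply]
  have hxn : Pool.Agent.R426.QK.ClsE x := (TwoPartTwistsX49.cls_e e hef x).1 hx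
  have hdn : Pool.Agent.R426.QK.ClsE (e.symm d) := by
    rw [← TwoPartTwistsX49.cls_e e hef, e.apply_symm_apply]
    exact hd
  have h1 := mul_inClass ha hK hx hd hc
  rw [e1] at h1 ⊢
  rw [noSelmer_iff ha hK e hea hef h1, Pool.Agent.R426.QK.PD_mul
    ((Pool.Agent.R426.QK.NS.cls_iff _).1 hxn).1.ne ((Pool.Agent.R426.QK.NS.cls_iff _).1 hdn).1.ne]

omit [NumberField K] in
lemma cop_e (e : Pool.Agent.Y698.RR ≃+* 𝓞 K) (x : Pool.Agent.Y698.RR) (d : 𝓞 K) :
    IsCoprime (e x) d ↔ IsCoprime x (e.symm d) := by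
  constructor
  · intro k3
    have k4 := k3.map (e.symm : 𝓞 K →+* Pool.Agent.Y698.RR)
    change IsCoprime (e.symm (e x)) (e.symm d) at k4
    rwa [e.symm_apply_apply] at k4
  · intro k3
    have k4 := k3.map (e : Pool.Agent.Y698.RR →+* 𝓞 K)
    change IsCoprime (e x) (e (e.symm d)) at k4
    rwa [e.apply_symm_apply] at k4

/-- `1` is in the class -/
lemma one_inClass {a : 𝓞 K} (ha : a ^ 2 = a - 2) (hK : Module.finrank ℚ K = 2) : InClass a 1 := by
  refine ⟨squarefree_one, by simp, ?_⟩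
  obtain ⟨e, -, hef⟩ := TwoPartTwistsX49.exists_e ha hK
  intro h
  have h1 : IsUnit (e Pool.Agent.Y698.fR) := by
    rw [hef]
    exact isUnit_of_dvd_one h
  exact Pool.Agent.R426.QC.prime_fR.not_isUnit ((isUnit_map_iff e _).1 h1)

lemma one_le_numDivisors {a : 𝓞 K} (ha : a ^ 2 = a - 2) (hK : Module.finrank ℚ K = 2) {d : 𝓞 K}
    (hd : InClass a d) (hd1 : d ≠ 1) : 1 ≤ numDivisors d := by
  obtain ⟨e, -, hef⟩ := TwoPartTwistsX49.exists_e ha hK
  have hdn : Pool.Agent.R426.QK.ClsE (e.symm d) := by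
    rw [← TwoPartTwistsX49.cls_e e hef, e.apply_symm_apply]
    exact hd
  have h1 : numDivisors (e (e.symm d)) = (Pool.Agent.R426.QK.PD (e.symm d)).card :=
    SQ.nPr_PD e hdn
  rw [e.apply_symm_apply] at h1
  rw [h1, Nat.one_le_iff_ne_zero, Ne, Finset.card_eq_zero]
  intro h2
  apply hd1
  have h3 := ((Pool.Agent.R426.QK.NS.cls_iff _).1 hdn).1.prod
  rw [h2, Finset.prod_empty] at h3
  rw [← e.apply_symm_apply d, ← h3, map_one]

/-- the joint proportion for a finite number of fields -/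
theorem proportion_fields {a : 𝓞 K} (ha : a ^ 2 = a - 2) (hK : Module.finrank ℚ K = 2)
    (T : Finset (𝓞 K)) (hT0 : T.Nonempty) (hT : ∀ d ∈ T, InClass a d ∧ d ≠ 1) :
    Tendsto (fun X : ℕ =>
      (({D ∈ family a T X | ∀ d ∈ T, GoodLarge a X D d}.ncard : ℕ) : ℝ) /
      ((family a T X).ncard : ℝ)) atTop (nhds (c2 ^ (T.card + 1))) ∧
    ∃ δ : ℝ, 0 < δ ∧ ∀ᶠ X : ℕ in atTop, δ * X ≤
      (({D ∈ family a T X | ∀ d ∈ T, GoodLarge a X D d}.ncard : ℕ) : ℝ) := by
  classical
  obtain ⟨e, hea, hef⟩ := TwoPartTwistsX49.exists_e ha hK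
  have k1 : ∀ x, InClass a (e x) ↔ Pool.Agent.R426.QK.ClsE x := TwoPartTwistsX49.cls_e e hef
  have h1c : Pool.Agent.R426.QK.ClsE (1 : Pool.Agent.Y698.RR) := by
    rw [← TwoPartTwistsX49.cls_e e hef, map_one]
    exact one_inClass ha hK
  have hTn : ∀ d ∈ T, Pool.Agent.R426.QK.ClsE (e.symm d) := by
    intro d hd
    rw [← TwoPartTwistsX49.cls_e e hef, e.apply_symm_apply]
    exact (hT d hd).1
  set N : Option {d // d ∈ T} → Pool.Agent.Y698.RR := fun i => i.elim 1 (fun d => e.symm d.1) with hN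
  have hNc : ∀ i, Pool.Agent.R426.QK.ClsE (N i) := by
    rintro (_ | d)
    · exact h1c
    · exact hTn d.1 d.2
  have hNi : Function.Injective N := by
    rintro (_ | d) (_ | d') h
    · rfl
    · exfalso
      have h' : (1 : Pool.Agent.Y698.RR) = e.symm d'.1 := h
      apply (hT d'.1 d'.2).2
      rw [← e.apply_symm_apply d'.1, ← h', map_one]
    · exfalso
      have h' : e.symm d.1 = (1 : Pool.Agent.Y698.RR) := h
      apply (hT d.1 d.2).2
      rw [← e.apply_symm_apply d.1, h', map_one]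
    · have h' : e.symm d.1 = e.symm d'.1 := h
      rw [Subtype.ext (e.symm.injective h')]
  obtain ⟨h, δ, hδ, h'⟩ := SQ.densI N hNc hNi
  have hcard : Fintype.card (Option {d // d ∈ T}) = T.card + 1 := by
    rw [Fintype.card_option, Fintype.card_coe]
  rw [hcard] at h
  have hcop : ∀ x, (∀ i, IsCoprime x (N i)) ↔ ∀ d ∈ T, IsCoprime (e x) d := by
    intro x
    constructor
    · intro h d hd
      exact (cop_e e x d).2 (h (some ⟨d, hd⟩))
    · rintro h (_ | d)
      · exact isCoprime_one_right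
      · exact (cop_e e x d.1).1 (h d.1 d.2)
  have e1 : ∀ X : ℕ, {x : Pool.Agent.Y698.RR | Pool.Agent.R426.QK.nrm x ≤ X ∧
      (Pool.Agent.R426.QK.ClsE x ∧ ∀ i, IsCoprime x (N i))}.ncard = (family a T X).ncard := by
    intro X
    have g := Pool.Agent.R426.QK.ncard_e e X (fun D : 𝓞 K => InClass a D ∧ ∀ d ∈ T, IsCoprime D d)
      (fun x => Pool.Agent.R426.QK.ClsE x ∧ ∀ i, IsCoprime x (N i))
      (fun x => and_congr (k1 x) (hcop x).symm)
    exact g.symm
  have e2 : ∀ X : ℕ, {x : Pool.Agent.Y698.RR | Pool.Agent.R426.QK.nrm x ≤ X ∧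
      ((Pool.Agent.R426.QK.ClsE x ∧ ∀ i, IsCoprime x (N i)) ∧ ∀ i, Pool.Agent.R426.QK.Gd
        (Pool.Agent.R426.QK.PD x ∪ Pool.Agent.R426.QK.PD (N i)))}.ncard =
      {D ∈ family a T X | ∀ d ∈ T, GoodPair D d}.ncard := by
    intro X
    have g := Pool.Agent.R426.QK.ncard_e e X
      (fun D : 𝓞 K => (InClass a D ∧ ∀ d ∈ T, IsCoprime D d) ∧ ∀ d ∈ T, GoodPair D d)
      (fun x => (Pool.Agent.R426.QK.ClsE x ∧ ∀ i, IsCoprime x (N i)) ∧
        ∀ i, Pool.Agent.R426.QK.Gd (Pool.Agent.R426.QK.PD x ∪ Pool.Agent.R426.QK.PD (N i)))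
      (fun x => ?_)
    · refine g.symm.trans (congrArg Set.ncard ?_)
      ext D
      unfold family
      simp only [Set.mem_ofPred_eq]
      tauto
    · have key : InClass a (e x) → (∀ d ∈ T, IsCoprime (e x) d) →
          ((∀ d ∈ T, GoodPair (e x) d) ↔ ∀ i, Pool.Agent.R426.QK.Gd
            (Pool.Agent.R426.QK.PD x ∪ Pool.Agent.R426.QK.PD (N i))) := by
        intro g1 g2
        have g0 : Pool.Agent.R426.QK.Gd (Pool.Agent.R426.QK.PD x ∪
            Pool.Agent.R426.QK.PD (N none)) ↔ NoSelmer (curve ((e x : 𝓞 K) : K)) := by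
          rw [noSelmer_iff ha hK e hea hef g1]
          show Pool.Agent.R426.QK.Gd (_ ∪ Pool.Agent.R426.QK.PD 1) ↔ _
          rw [Pool.Agent.R426.QK.PD_one, Finset.union_empty]
        constructor
        · rintro g3 (_ | d)
          · obtain ⟨d, hd⟩ := hT0
            exact g0.2 (g3 d hd).1
          · exact (noSelmer_mul ha hK e hea hef g1 (hT d.1 d.2).1 (g2 d.1 d.2)).1
              (g3 d.1 d.2).2
        · intro g3 d hd
          exact ⟨g0.1 (g3 none), (noSelmer_mul ha hK e hea hef g1 (hT d hd).1 (g2 d hd)).2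
            (g3 (some ⟨d, hd⟩))⟩
      constructor
      · rintro ⟨⟨g1, g2⟩, g3⟩
        exact ⟨⟨(k1 x).1 g1, (hcop x).2 g2⟩, (key g1 g2).1 g3⟩
      · rintro ⟨⟨g1, g2⟩, g3⟩
        exact ⟨⟨(k1 x).2 g1, (hcop x).1 g2⟩, (key ((k1 x).2 g1) ((hcop x).1 g2)).2 g3⟩
  simp only [e1, e2] at h h'
  set B : 𝓞 K → ℕ → Set (𝓞 K) := fun d X =>
    {D : 𝓞 K | Ideal.absNorm (Ideal.span {D}) ≤ X ∧ ((InClass a D ∧ IsCoprime D d) ∧
      (4 : ℝ) ^ (SQ.inn (e.symm d) (e.symm D)) < 4 * Real.log X ^ (2 / 5 : ℝ))} with hB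
  have hBs : ∀ d ∈ T, ∀ ε : ℝ, 0 < ε → ∀ᶠ X : ℕ in atTop, ((B d X).ncard : ℝ) ≤ ε * X := by
    intro d hd ε hε
    have hn1 : e.symm d ≠ 1 := by
      intro h1
      apply (hT d hd).2
      rw [← e.apply_symm_apply d, h1, map_one]
    filter_upwards [SQ.few_inert' (hTn d hd) hn1 4 (by norm_num) ε hε] with X hX
    rw [hB]
    simp only
    rw [Pool.Agent.R426.QK.ncard_e e X (fun D : 𝓞 K => (InClass a D ∧ IsCoprime D d) ∧
      (4 : ℝ) ^ (SQ.inn (e.symm d) (e.symm D)) < 4 * Real.log X ^ (2 / 5 : ℝ))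
      (fun x => (Pool.Agent.R426.QK.ClsE x ∧ IsCoprime x (e.symm d)) ∧
        (4 : ℝ) ^ (SQ.inn (e.symm d) x) < 4 * Real.log X ^ (2 / 5 : ℝ))]
    · exact hX
    · intro x
      rw [e.symm_apply_apply, k1 x, cop_e e x d]
  have key := density_sub (F := fun X => family a T X)
    (G := fun X => {D ∈ family a T X | ∀ d ∈ T, GoodPair D d})
    (B := fun X => {D | ∃ d ∈ T, D ∈ B d X})
    (H := fun X => {D ∈ family a T X | ∀ d ∈ T, GoodLarge a X D d})
    hδ (fun X => (finite_norm X ha hK).subset fun D hD => hD.1) (fun X D hD => hD.1) h h'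
    (small_union T B hBs)
    (fun X => (finite_norm X ha hK).subset fun D hD => by
      obtain ⟨d, -, hd⟩ := hD
      exact hd.1)
    (fun X D hD => ⟨hD.1, fun d hd => (hD.2 d hd).1⟩) (fun X D hD => ?_)
  · exact ⟨key.1, δ / 2, by positivity, key.2⟩
  · by_cases h1 : ∀ d ∈ T, GoodLarge a X D d
    · exact Or.inl ⟨hD.1, h1⟩
    · push Not at h1
      obtain ⟨d, hd, h2⟩ := h1
      refine Or.inr ⟨d, hd, hD.1.1, ⟨hD.1.2.1, hD.1.2.2 d hd⟩, ?_⟩
      by_contra h3
      apply h2
      refine ⟨hD.2 d hd, ?_⟩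
      push Not at h3
      have hDn : Pool.Agent.R426.QK.ClsE (e.symm D) := by
        rw [← TwoPartTwistsX49.cls_e e hef, e.apply_symm_apply]
        exact hD.1.2.1
      have h4 := SQ.inn_le hef hDn (hTn d hd)
        ((hD.1.2.2 d hd).map (e.symm : 𝓞 K →+* Pool.Agent.Y698.RR))
      rw [map_mul e, hef, e.apply_symm_apply, e.apply_symm_apply] at h4
      have h5 := one_le_numDivisors ha hK (hT d hd).1 (hT d hd).2
      have h6 : SQ.inn (e.symm d) (e.symm D) + 1 ≤
          numDivisors d + numInert ((2 * a - 1) * D) d := by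
        have h7 : numInert ((2 * a - 1) * D) d = SQ.nIn ((2 * a - 1) * D) d := rfl
        omega
      have h8 : (4 : ℝ) ^ (SQ.inn (e.symm d) (e.symm D) + 1) ≤
          4 ^ (numDivisors d + numInert ((2 * a - 1) * D) d) :=
        pow_le_pow_right₀ (by norm_num) h6
      rw [pow_succ] at h8
      linarith

/-- the joint proportion for a finite number of curves -/
theorem proportion_curves {a : 𝓞 K} (ha : a ^ 2 = a - 2) (hK : Module.finrank ℚ K = 2)
    (T : Finset (𝓞 K)) (hT : ∀ D ∈ T, InClass a D ∧ NoSelmer (curve (D : K))) :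
    Tendsto (fun X : ℕ =>
      (({d ∈ family a T X | ∀ D ∈ T, GoodLarge a X D d}.ncard : ℕ) : ℝ) /
      ((family a T X).ncard : ℝ)) atTop (nhds (c2 ^ T.card)) ∧
    ∃ δ : ℝ, 0 < δ ∧ ∀ᶠ X : ℕ in atTop, δ * X ≤
      (({d ∈ family a T X | ∀ D ∈ T, GoodLarge a X D d}.ncard : ℕ) : ℝ) := by
  classical
  obtain ⟨e, hea, hef⟩ := TwoPartTwistsX49.exists_e ha hK
  have k1 : ∀ x, InClass a (e x) ↔ Pool.Agent.R426.QK.ClsE x := TwoPartTwistsX49.cls_e e hef
  have hTn : ∀ d ∈ T, Pool.Agent.R426.QK.ClsE (e.symm d) := by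
    intro d hd
    rw [← TwoPartTwistsX49.cls_e e hef, e.apply_symm_apply]
    exact (hT d hd).1
  set N : {D // D ∈ T} → Pool.Agent.Y698.RR := fun d => e.symm d.1 with hN
  have hNc : ∀ i, Pool.Agent.R426.QK.ClsE (N i) := fun d => hTn d.1 d.2
  have hNi : Function.Injective N := by
    intro d d' h
    exact Subtype.ext (e.symm.injective h)
  obtain ⟨h, δ, hδ, h'⟩ := SQ.densI N hNc hNi
  rw [Fintype.card_coe] at h
  have hcop : ∀ x, (∀ i, IsCoprime x (N i)) ↔ ∀ D ∈ T, IsCoprime (e x) D := by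
    intro x
    constructor
    · intro h d hd
      exact (cop_e e x d).2 (h ⟨d, hd⟩)
    · rintro h d
      exact (cop_e e x d.1).1 (h d.1 d.2)
  have e1 : ∀ X : ℕ, {x : Pool.Agent.Y698.RR | Pool.Agent.R426.QK.nrm x ≤ X ∧
      (Pool.Agent.R426.QK.ClsE x ∧ ∀ i, IsCoprime x (N i))}.ncard = (family a T X).ncard := by
    intro X
    have g := Pool.Agent.R426.QK.ncard_e e X (fun D : 𝓞 K => InClass a D ∧ ∀ d ∈ T, IsCoprime D d)
      (fun x => Pool.Agent.R426.QK.ClsE x ∧ ∀ i, IsCoprime x (N i))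
      (fun x => and_congr (k1 x) (hcop x).symm)
    exact g.symm
  have e2 : ∀ X : ℕ, {x : Pool.Agent.Y698.RR | Pool.Agent.R426.QK.nrm x ≤ X ∧
      ((Pool.Agent.R426.QK.ClsE x ∧ ∀ i, IsCoprime x (N i)) ∧ ∀ i, Pool.Agent.R426.QK.Gd
        (Pool.Agent.R426.QK.PD x ∪ Pool.Agent.R426.QK.PD (N i)))}.ncard =
      {d ∈ family a T X | ∀ D ∈ T, GoodPair D d}.ncard := by
    intro X
    have g := Pool.Agent.R426.QK.ncard_e e X
      (fun d : 𝓞 K => (InClass a d ∧ ∀ D ∈ T, IsCoprime d D) ∧ ∀ D ∈ T, GoodPair D d)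
      (fun x => (Pool.Agent.R426.QK.ClsE x ∧ ∀ i, IsCoprime x (N i)) ∧
        ∀ i, Pool.Agent.R426.QK.Gd (Pool.Agent.R426.QK.PD x ∪ Pool.Agent.R426.QK.PD (N i)))
      (fun x => ?_)
    · refine g.symm.trans (congrArg Set.ncard ?_)
      ext D
      unfold family
      simp only [Set.mem_ofPred_eq]
      tauto
    · have key : InClass a (e x) → (∀ D ∈ T, IsCoprime (e x) D) →
          ((∀ D ∈ T, GoodPair D (e x)) ↔ ∀ i, Pool.Agent.R426.QK.Gd
            (Pool.Agent.R426.QK.PD x ∪ Pool.Agent.R426.QK.PD (N i))) := by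
        intro g1 g2
        have g0 : ∀ D ∈ T, (NoSelmer (curve ((D * e x : 𝓞 K) : K)) ↔ Pool.Agent.R426.QK.Gd
            (Pool.Agent.R426.QK.PD x ∪ Pool.Agent.R426.QK.PD (e.symm D))) := by
          intro D hD
          rw [mul_comm D]
          exact noSelmer_mul ha hK e hea hef g1 (hT D hD).1 (g2 D hD)
        constructor
        · intro g3 D
          exact (g0 D.1 D.2).1 (g3 D.1 D.2).2
        · intro g3 D hD
          exact ⟨(hT D hD).2, (g0 D hD).2 (g3 ⟨D, hD⟩)⟩
      constructor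
      · rintro ⟨⟨g1, g2⟩, g3⟩
        exact ⟨⟨(k1 x).1 g1, (hcop x).2 g2⟩, (key g1 g2).1 g3⟩
      · rintro ⟨⟨g1, g2⟩, g3⟩
        exact ⟨⟨(k1 x).2 g1, (hcop x).1 g2⟩, (key ((k1 x).2 g1) ((hcop x).1 g2)).2 g3⟩
  simp only [e1, e2] at h h'
  have hB : ∀ ε : ℝ, 0 < ε → ∀ᶠ X : ℕ in atTop,
      (({d : 𝓞 K | Ideal.absNorm (Ideal.span {d}) ≤ X ∧ (InClass a d ∧
        (4 : ℝ) ^ (numDivisors d) < 16 * Real.log X ^ (2 / 5 : ℝ))}.ncard : ℕ) : ℝ) ≤ ε * X := by
    intro ε hε
    filter_upwards [SQ.few_div' 16 (by norm_num) ε hε] with X hX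
    rw [Pool.Agent.R426.QK.ncard_e e X (fun d : 𝓞 K => InClass a d ∧
        (4 : ℝ) ^ (numDivisors d) < 16 * Real.log X ^ (2 / 5 : ℝ))
      (fun x => Pool.Agent.R426.QK.ClsE x ∧
        (4 : ℝ) ^ ((Pool.Agent.R426.QK.PD x).card) < 16 * Real.log X ^ (2 / 5 : ℝ))]
    · exact hX
    · intro x
      constructor
      · rintro ⟨g1, g3⟩
        have g2 : numDivisors (e x) = (Pool.Agent.R426.QK.PD x).card := SQ.nPr_PD e ((k1 x).1 g1)
        exact ⟨(k1 x).1 g1, by rw [← g2]; exact g3⟩
      · rintro ⟨g1, g3⟩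
        have g2 : numDivisors (e x) = (Pool.Agent.R426.QK.PD x).card := SQ.nPr_PD e g1
        exact ⟨(k1 x).2 g1, by rw [g2]; exact g3⟩
  have key := density_sub (F := fun X => family a T X)
    (G := fun X => {d ∈ family a T X | ∀ D ∈ T, GoodPair D d})
    (B := fun X => {d : 𝓞 K | Ideal.absNorm (Ideal.span {d}) ≤ X ∧ (InClass a d ∧
        (4 : ℝ) ^ (numDivisors d) < 16 * Real.log X ^ (2 / 5 : ℝ))})
    (H := fun X => {d ∈ family a T X | ∀ D ∈ T, GoodLarge a X D d})
    hδ (fun X => (finite_norm X ha hK).subset fun D hD => hD.1) (fun X D hD => hD.1) h h' hB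
    (fun X => (finite_norm X ha hK).subset fun D hD => hD.1)
    (fun X D hD => ⟨hD.1, fun d hd => (hD.2 d hd).1⟩) (fun X d hd => ?_)
  · exact ⟨key.1, δ / 2, by positivity, key.2⟩
  · by_cases h1 : (4 : ℝ) ^ (numDivisors d) < 16 * Real.log X ^ (2 / 5 : ℝ)
    · exact Or.inr ⟨hd.1.1, hd.1.2.1, h1⟩
    · push Not at h1
      refine Or.inl ⟨hd.1, fun D hD => ⟨hd.2 D hD, ?_⟩⟩
      have h8 : (4 : ℝ) ^ (numDivisors d) ≤
          4 ^ (numDivisors d + numInert ((2 * a - 1) * D) d) :=
        pow_le_pow_right₀ (by norm_num) (Nat.le_add_right _ _)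
      linarith

/-- the curve of conductor `49` over `K` -/
lemma noSelmer_one {a : 𝓞 K} (ha : a ^ 2 = a - 2) (hK : Module.finrank ℚ K = 2) :
    NoSelmer (curve (((1 : 𝓞 K)) : K)) := by
  classical
  obtain ⟨S, hS, -, hC⟩ := TwoPartTwistsX49.criterion ha hK (D := 1) (by simp) squarefree_one
    (one_inClass ha hK).2.2
  have hS0 : S = ∅ := Finset.eq_empty_of_forall_notMem fun p hp =>
    ((hS p).1 hp).1.not_isUnit (isUnit_of_dvd_one ((hS p).1 hp).2.1)
  subst hS0
  refine hC.2.1.2 ?_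
  rw [Matrix.det_isEmpty]
  exact one_ne_zero

end proof

/-- **Main theorem.** Let `K = ℚ(√-7)`, that is, a number field of degree two with an integer `a` such
that `a² = a - 2`.
(1) Let `D` and `d ≠ 1` be coprime and `InClass a`, let `L` be a number field with `[L : K] = 2` that contains
a square root of `d`, let `n` be the number of the prime ideals of `K` that divide `d` and `i` the number of
those that divide `√-7 D` and modulo which `d` is not a square. Then `Criterion D d i` holds for the curve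
`E_D` over `L`; in particular, `16` times the predicted order of `Ш(E_D/L)` has at each valuation above two at
most the absolute value of `4 ^ (n + i)`, with equality iff `NoSelmer` holds for `E_D` and `E_{D d}` over `K`,
and then the 2-part of the strong conjecture of Birch and Swinnerton-Dyer, in the form `TwoPart`, holds for
`E_D` over `L`, the 2-primary part of `Ш(E_D/L)` has `4 ^ (n + i) / 16` elements, and it is killed by `2`.
(2) Let `T` be a finite nonempty set of elements `d ≠ 1` of the class, that is, of fields `L`. The proportion,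
among the `D` of norm at most `X` that are prime to the elements of `T`, of those such that for all `d` in `T`
one has `GoodPair D d` (so that `TwoPart` holds for `E_D` over `K(√d)`) and the 2-primary part of
`Ш(E_D/K(√d))` has at least `(log X) ^ (2 / 5)` elements tends to `c2 ^ (#T + 1)`, and the number of these `D`
is at least `δ X`, for a positive constant `δ`, for all large `X`.
(3) Let `T` be a finite set of elements `D` of the class with `NoSelmer` (for example `D = 1`), that is, of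
curves. The proportion, among the `d` of norm at most `X` that are prime to the elements of `T`, of those such
that for all `D` in `T` one has `GoodPair D d` (so that `TwoPart` holds for `E_D` over `K(√d)`) and the
2-primary part of `Ш(E_D/K(√d))` has at least `(log X) ^ (2 / 5)` elements tends to `c2 ^ #T`, and the number
of these `d` is at least `δ X`, for a positive constant `δ`, for all large `X`.
(4) `0.288 < c2 < 0.289`. -/
theorem result (K : Type) [Field K] [NumberField K] (a : 𝓞 K) (ha : a ^ 2 = a - 2)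
    (hK : Module.finrank ℚ K = 2) :
    (∀ D d : 𝓞 K, InClass a D → InClass a d → IsCoprime D d → d ≠ 1 →
      ∀ (L : Type) [Field L] [NumberField L] [Algebra K L], Module.finrank K L = 2 →
        (∃ x : L, x ^ 2 = algebraMap K L (d : K)) →
        Criterion D d (numInert ((2 * a - 1) * D) d) (curve (algebraMap K L (D : K)))) ∧
    (∀ T : Finset (𝓞 K), T.Nonempty → (∀ d ∈ T, InClass a d ∧ d ≠ 1) →
      Filter.Tendsto (fun X : ℕ =>
        (({D ∈ family a T X | ∀ d ∈ T, GoodLarge a X D d}.ncard : ℕ) : ℝ) /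
          ((family a T X).ncard : ℝ)) Filter.atTop (nhds (c2 ^ (T.card + 1))) ∧
      ∃ δ : ℝ, 0 < δ ∧ ∀ᶠ X : ℕ in Filter.atTop, δ * X ≤
        (({D ∈ family a T X | ∀ d ∈ T, GoodLarge a X D d}.ncard : ℕ) : ℝ)) ∧
    (∀ T : Finset (𝓞 K), (∀ D ∈ T, InClass a D ∧ NoSelmer (curve (D : K))) →
      Filter.Tendsto (fun X : ℕ =>
        (({d ∈ family a T X | ∀ D ∈ T, GoodLarge a X D d}.ncard : ℕ) : ℝ) /
          ((family a T X).ncard : ℝ)) Filter.atTop (nhds (c2 ^ T.card)) ∧
      ∃ δ : ℝ, 0 < δ ∧ ∀ᶠ X : ℕ in Filter.atTop, δ * X ≤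
        (({d ∈ family a T X | ∀ D ∈ T, GoodLarge a X D d}.ncard : ℕ) : ℝ)) ∧
    (InClass a 1 ∧ NoSelmer (curve ((1 : 𝓞 K) : K))) ∧ 0.288 < c2 ∧ c2 < 0.289 := by
  obtain ⟨-, -, -, h3, h4⟩ := Pool.Agent.R426.QK.MOM.t_C2
  exact ⟨fun D d hD hd hc hd1 L _ _ _ hdeg ⟨x, hx⟩ => extension ha hK hD hd hc hd1 L hdeg x hx,
    fun T hT0 hT => proportion_fields ha hK T hT0 hT, fun T hT => proportion_curves ha hK T hT,
    ⟨one_inClass ha hK, noSelmer_one ha hK⟩, h3, h4⟩

end Pool.Agent.Results.MP_9ab903_nt.TwoPartRelQuadX49H76
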