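import Pool.Agent.E8helper76.RQ.All
import Pool.Agent.R413.SQ.Cor
import Pool.Agent.Y948.CQ.C2

/-!
# The 2-part of the strong conjecture of Birch and Swinnerton-Dyer for the twists of `X_0(49)` over real
# quadratic fields

`D ≥ 1` and `d > 1` are any coprime squarefree numbers with all prime factors `≡ 1 mod 4`, `F = ℚ(√d)` is a real
quadratic field and `E_D` is the quadratic twist by `D` of `X_0(49) : y² + x y = x³ - x² - 2 x - 1`, a curve with
complex multiplication by the integers of `ℚ(√-7)`, which is not contained in `F`. Let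
`z = L(E_D/F, 1) √(disc F) #E_D(F)_tors² / (Ω² ∏ c_v)`, which is zero or the order of `Ш(E_D/F)` according to
the conjecture; `Ω` is the real period, the same for the two real places. Let
`ex = a + 2 b + 2 c + e` with the number `a` of the prime factors of `d` that are inert in `ℚ(√-7)`, the number
`b` of those that split in `ℚ(√-7)`, the number `c` of the prime factors of `D` that split in `ℚ(√-7)` and are
inert in `F`, and `e = 1` if `7` is inert in `F`, `e = 0` if not. With no hypothesis on the rank, on `Ш` or on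
the `L`-function over `F` we prove:

* `disc F = d`, the equation is minimal at all the finite places of `F`, `L(E_D/F, s)` is entire,
  `#E_D(F)_tors` is twice an odd number and `∏ c_v` is an explicit power of two;
* `4 z / 2 ^ ex` is integral at all the valuations of `ℂ` above two, and it is a unit at one of them iff it is
  so at all of them iff `E_D(ℚ)` and `E_{Dd}(ℚ)` are finite and `Ш(E_D/ℚ)[2]` and `Ш(E_{Dd}/ℚ)[2]` are zero iff
  two explicit matrices of quadratic and quartic residue symbols are not singular;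
* in this case `E_D(F)` is finite, `L(E_D/F, 1) ≠ 0`, the 2-primary part of `Ш(E_D/F)` is killed by `2`, it has
  exactly `2 ^ (ex - 2)` elements, and this is the 2-part of `z`: the 2-part of the strong conjecture;
* for `E = X_0(49)` and for every number `B` this happens, and `Ш(E/F)[2^∞]` has at least `B` elements, for a
  proportion of exactly `∏_{i ≥ 0} (1 - 2^{-(2i+1)}) = 0.4194...` of the fields `F = ℚ(√d)` of the class,
  and for at least `α X / √(log X)` of the `d ≤ X`, for a constant `α > 0`, the order of magnitude of the class.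

Proof. Over `ℚ` the values at `s = 1` and the criterion are in `MP_4a9ea6_nt/TwoPartTwistsX49`; the `L`-function
over `F`, the periods, the torsion and the Tamagawa numbers are compared with those of `E_D` and `E_{Dd}` over
`ℚ`. For `Ш` let `L = F(√-7)`. The order of `Ш(E_D/L)[2^∞]`, a square `N²`, and the fact that it is killed by
two come from the descent of `MP_9ab903_nt/TwoPartRelQuadX49H76`, together with explicit classes with values in
the two subgroups of order two of `E[2]` that are swapped by `Gal(L/F)`; they form subgroups `A₁`, `A₂` with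
`A₁ ∩ A₂ = 0` and at least `N` elements. The restriction `Ш(E_D/F)[2^∞] → Ш(E_D/L)` is injective, as
`H¹(Gal(L/F), E_D(L))` has odd order, its image meets `A₁` in zero, as the restriction of the corestriction of an
element `x` of `A₁` is in `x + A₂`, and for the same reason the corestriction is injective on `A₁`; so
`Ш(E_D/F)[2^∞]` has at most `N` and at least `N` elements. The proportion is that of `Pool/Agent/R413/SQ`.
-/

set_option autoImplicit false

open NumberField IsDedekindDomain WeierstrassCurve MeasureTheory Filter Topology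

namespace Pool.Agent.Results.MP_9ab903_nt.TwoPartX49RealQuadraticH76

open Pool.Agent.TH841.NF.D (Sha)
open Pool.Agent.TH841.SH.D (Pt)

/-- The quadratic twist by `D ≡ 1 mod 4` of `X_0(49) : y² + x y = x³ - x² - 2 x - 1`. -/
def twist (D : ℕ) : WeierstrassCurve ℤ := ⟨1, -((3 * D + 1) / 4), 0, -2 * D ^ 2, -D ^ 3⟩

/-- The curve over the field `K`. -/
abbrev E (K : Type) [Field K] (D : ℕ) : WeierstrassCurve K := (twist D).map (Int.castRingHom K)

section

variable {K : Type} [Field K] [NumberField K]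

/-- The equation is minimal at the place `v`: no change of variables over `K` that keeps the
coefficients integral at `v` decreases the order of the discriminant. -/
def MinimalAt (W : WeierstrassCurve K) (v : HeightOneSpectrum (𝓞 K)) : Prop :=
  ∀ C : VariableChange K, v.valuation K (C • W).a₁ ≤ 1 → v.valuation K (C • W).a₂ ≤ 1 →
    v.valuation K (C • W).a₃ ≤ 1 → v.valuation K (C • W).a₄ ≤ 1 → v.valuation K (C • W).a₆ ≤ 1 →
    v.valuation K (C • W).Δ ≤ v.valuation K W.Δ

/-- `W⁰(K_v)`, the group of the points of `W` over the completion `K_v` with nonsingular reduction: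
the point at infinity and the points `(x, y)` where `x` is not integral, or one of the partial
derivatives of `y² + a₁ x y + a₃ y - x³ - a₂ x² - a₄ x - a₆` is a unit at `(x, y)`.
Here `Pt W K_v` is the group of the points of `W` over `K_v`. -/
noncomputable def nonsing (W : WeierstrassCurve K) (v : HeightOneSpectrum (𝓞 K)) :
    AddSubgroup (Pt W (v.adicCompletion K)) :=
  AddSubgroup.closure {P | ∀ x y h, P = Affine.Point.some x y h →
    1 < Valued.v x ∨
    Valued.v ((W.baseChange (v.adicCompletion K)).a₁ * y -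
      (3 * x ^ 2 + 2 * (W.baseChange (v.adicCompletion K)).a₂ * x +
        (W.baseChange (v.adicCompletion K)).a₄)) = 1 ∨
    Valued.v (2 * y + (W.baseChange (v.adicCompletion K)).a₁ * x +
      (W.baseChange (v.adicCompletion K)).a₃) = 1}

/-- The Tamagawa number `c_v = [W(K_v) : W⁰(K_v)]` of a minimal equation. -/
noncomputable def c (W : WeierstrassCurve K) (v : HeightOneSpectrum (𝓞 K)) : ℕ :=
  (nonsing W v).index

/-- The product of the Tamagawa numbers. -/
noncomputable def Tam (W : WeierstrassCurve K) : ℕ := ∏ᶠ v : HeightOneSpectrum (𝓞 K), c W v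

/-- `Λ` is the L-function of `W`: it is entire and it is given by the L-series of `W`, which converges
absolutely, for `Re s > 2`. -/
def IsL (W : WeierstrassCurve K) (Λ : ℂ → ℂ) : Prop :=
  Differentiable ℂ Λ ∧ ∀ s : ℂ, 2 < s.re →
    LSeriesSummable ((fun n : ℤ => (n : ℂ)) ∘ W.LFunction) s ∧ Λ s = W.LSeries s

/-- The number of the elements of the 2-primary part of `Ш(W/K)` (zero if there are infinitely many). -/
noncomputable def shaTwo (W : WeierstrassCurve K) : ℕ :=
  Nat.card {x : Sha W // ∃ k : ℕ, 2 ^ k • x = 0}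

end

open Classical in
/-- The order of the torsion subgroup of `W(K)`. -/
noncomputable def torsOrder {K : Type} [Field K] (W : WeierstrassCurve K) : ℕ :=
  Nat.card (AddCommGroup.torsion W.toAffine.Point)

/-- `4 x³ + b₂ x² + 2 b₄ x + b₆ = (2 y + a₁ x + a₃)²`. -/
def cubic (W : WeierstrassCurve ℤ) (x : ℝ) : ℝ := 4 * x ^ 3 + W.b₂ * x ^ 2 + 2 * W.b₄ * x + W.b₆

/-- `Ω = ∫_{W(ℝ)} |ω|` with `ω = dx / (2 y + a₁ x + a₃)`, as an integral over `x`: two real points lie
over each `x` with `cubic x > 0`. -/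
noncomputable def Omega (W : WeierstrassCurve ℤ) : ℝ :=
  2 * ∫ x in {x : ℝ | 0 < cubic W x}, 1 / √(cubic W x)

/-- The order of the Tate-Shafarevich group predicted by the formula in rank zero for `E_D` over a real
quadratic field `F` (two real places with the same period), for the value `l` of the L-function at
`s = 1`: `l √|disc F| #E_D(F)_tors² / (Ω² ∏ c_v)`. -/
noncomputable def anOrder (F : Type) [Field F] [NumberField F] (D : ℕ) (l : ℂ) : ℂ :=
  l * (Real.sqrt |(discr F : ℝ)| : ℝ) * (torsOrder (E F D) : ℂ) ^ 2 /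
    (((Omega (twist D) : ℝ) : ℂ) ^ 2 * (Tam (E F D) : ℂ))

/-- The 2-part of the strong conjecture for `E_D` over the real quadratic field `F`, in rank zero:
`E_D(F)` is finite, the 2-primary part of `Ш` is finite, `L(E_D/F, s)` has an entire continuation that does
not vanish at `s = 1`, and the predicted order of `Ш` and the order of its 2-primary part have the same value
at every valuation `w` of the field of complex numbers with `w 2 < 1`. -/
def TwoPart (F : Type) [Field F] [NumberField F] (D : ℕ) : Prop :=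
  Finite (E F D).toAffine.Point ∧ shaTwo (E F D) ≠ 0 ∧ ∃ Λ : ℂ → ℂ, IsL (E F D) Λ ∧ Λ 1 ≠ 0 ∧
    ∀ (Γ : Type) [LinearOrderedCommGroupWithZero Γ] (w : Valuation ℂ Γ), w 2 < 1 →
      w (anOrder F D (Λ 1)) = w (shaTwo (E F D) : ℂ)

/-- The group `W(ℚ)` is finite and `Ш(W/ℚ)` has no element of order two. -/
def NoSelmer (W : WeierstrassCurve ℚ) : Prop :=
  Finite W.toAffine.Point ∧ ∀ x : Sha W, 2 • x = 0 → x = 0

/-- `NoSelmer` for the twists by `D` and by `D d`. -/
def GoodPair (D d : ℕ) : Prop := NoSelmer (E ℚ D) ∧ NoSelmer (E ℚ (D * d))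

/-- `D` is squarefree and all its prime factors are `≡ 1 mod 4`. -/
def Adm (D : ℕ) : Prop := Squarefree D ∧ ∀ p ∈ D.primeFactors, p % 4 = 1

open Classical in
/-- The prime factors of `D` which are inert in `ℚ(√-7)`. -/
noncomputable def inert (D : ℕ) : Finset ℕ := D.primeFactors.filter fun p => ¬ IsSquare (-7 : ZMod p)

open Classical in
/-- The prime factors of `D` which split in `ℚ(√-7)`. -/
noncomputable def split (D : ℕ) : Finset ℕ := D.primeFactors.filter fun p => IsSquare (-7 : ZMod p)

open Classical in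
/-- The exponent: `#(inert d) + 2 #(split d)`, plus twice the number of the prime factors of `D` that split
in `ℚ(√-7)` and modulo which `d` is not a square, plus one if `d` is not a square modulo `7`. -/
noncomputable def ex (D d : ℕ) : ℕ := (inert d).card + 2 * (split d).card +
  2 * ((split D).filter fun p => ¬ IsSquare (d : ZMod p)).card +
    if IsSquare (d : ZMod 7) then 0 else 1

open Classical in
/-- `1` if `m` is not a square modulo `p`, and `0` if it is -/
noncomputable def nonsq (p m : ℕ) : ZMod 2 := if IsSquare (m : ZMod p) then 0 else 1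

open Classical in
/-- `1` if `-7` is not a fourth power modulo `p`, and `0` if it is -/
noncomputable def nonfourth (p : ℕ) : ZMod 2 := if ∃ y : ZMod p, y ^ 4 = -7 then 0 else 1

/-- The matrix over the field with two elements, with rows and columns indexed by the prime factors of
`D` which split in `ℚ(√-7)`: the entry at `(i, j)` is `nonsq i j` for `i ≠ j`, and the entry at `(i, i)`
is the sum of `nonfourth i` and of the `nonsq i l` for all the prime factors `l ≠ i` of `D`. -/
noncomputable def mat (D : ℕ) : Matrix (split D) (split D) (ZMod 2) := Matrix.of fun i j =>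
  if i = j then nonfourth i + ∑ l ∈ D.primeFactors.erase i, nonsq i l else nonsq i j

/-- The statement for `E_D` over `F = ℚ(√d)`. -/
def Criterion (D d : ℕ) (F : Type) [Field F] [NumberField F] : Prop :=
  discr F = d ∧ (∀ v : HeightOneSpectrum (𝓞 F), MinimalAt (E F D) v) ∧
  {v : HeightOneSpectrum (𝓞 F) | c (E F D) v ≠ 1}.Finite ∧
  Tam (E F D) * 2 ^ ex D d =
    2 ^ (2 + (inert d).card + 2 * (split d).card + 2 * (inert D).card + 4 * (split D).card) ∧
  (∃ t : ℕ, Odd t ∧ torsOrder (E F D) = 2 * t) ∧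
  (∃ Λ : ℂ → ℂ, IsL (E F D) Λ ∧
    ∀ (Γ : Type) [LinearOrderedCommGroupWithZero Γ] (w : Valuation ℂ Γ), w 2 < 1 →
      w (4 * anOrder F D (Λ 1)) ≤ w (2 ^ ex D d) ∧
      (w (4 * anOrder F D (Λ 1)) = w (2 ^ ex D d) ↔ GoodPair D d)) ∧
  (GoodPair D d → TwoPart F D ∧ 4 * shaTwo (E F D) = 2 ^ ex D d ∧
    ∀ (k : ℕ) (x : Sha (E F D)), 2 ^ k • x = 0 → 2 • x = 0)

open Classical in
/-- The number of the `d ≤ X` of the class with the property `Q`. -/
noncomputable def num (Q : ℕ → Prop) (X : ℕ) : ℕ :=
  ((Finset.Icc 1 X).filter fun d => Adm d ∧ Q d).card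

/-- The 2-part of the strong conjecture for `X_0(49)` over `F = ℚ(√d)`, with at least `B` elements of the
2-primary part of `Ш`, in the case that `NoSelmer` holds for `E_d` over `ℚ`. -/
def Good (B d : ℕ) : Prop := d ≠ 1 ∧ NoSelmer (E ℚ d) ∧
  ∀ (F : Type) [Field F] [NumberField F] (δ : F), Module.finrank ℚ F = 2 → δ ^ 2 = (d : F) →
    TwoPart F 1 ∧ B ≤ shaTwo (E F 1)

/-- The constant `0.4194...`. -/
noncomputable def cc : ℝ := ∏' i : ℕ, (1 - (1 / 2 : ℝ) ^ (2 * i + 1))

section proof

open Pool.Agent.E8helper76.RQ (pcs t_BIG core nosel_iff)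

lemma ex_eq (D d : ℕ) : ex D d = Pool.Agent.E8helper76.RQ.ex D d := by
  classical
  unfold ex Pool.Agent.E8helper76.RQ.ex
  have h1 : ((split D).filter fun p => ¬ IsSquare (d : ZMod p)).card =
      (split D).card - ((split D).filter fun p => IsSquare (d : ZMod p)).card := by
    have := Finset.card_filter_add_card_filter_not (s := split D)
      (fun p : ℕ => IsSquare (d : ZMod p))
    omega
  have h2 : (split D).card - ((split D).filter fun p => IsSquare (d : ZMod p)).card =
      (Pool.Agent.E8helper76.RQ.split D).card - (Pool.Agent.E8helper76.RQ.spsp D d).card := rfl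
  rw [h1, h2]
  rfl

theorem criterion {D d : ℕ} (hD : Adm D) (hd : Adm d) (hc : D.Coprime d) (hd1 : d ≠ 1)
    (F : Type) [Field F] [NumberField F] (δ : F) (hdeg : Module.finrank ℚ F = 2)
    (hδ : δ ^ 2 = (d : F)) : Criterion D d F := by
  obtain ⟨h1, h2, h3, h4, h5, ⟨Λ, h6, h7, h8, h9⟩, h10⟩ := core pcs hD hd hc hd1 hdeg hδ
  have ee := ex_eq D d
  rw [← ee] at h3 h8 h10
  refine ⟨h5, h1, h2, h3, h4, ⟨Λ, ⟨h6, h7⟩, h8⟩, fun hg => ?_⟩
  obtain ⟨q1, q2, q3⟩ := h10 hg.1 hg.2
  have q3' : 4 * shaTwo (E F D) = 2 ^ ex D d := q3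
  have hne : shaTwo (E F D) ≠ 0 := by
    intro h0
    rw [h0, mul_zero] at q3'
    exact (pow_ne_zero _ (by norm_num)) q3'.symm
  refine ⟨⟨q1, hne, Λ, ⟨h6, h7⟩, h9 hg.1 hg.2, fun Γ _ w hw => ?_⟩, q3', q2⟩
  have k1 : w (4 * anOrder F D (Λ 1)) = w (2 ^ ex D d) := (h8 Γ w hw).2.2 hg
  have k2 : (2 : ℂ) ^ ex D d = 4 * (shaTwo (E F D) : ℂ) := by
    have := congrArg (fun n : ℕ => (n : ℂ)) q3'
    push_cast at this
    exact this.symm
  rw [k2, map_mul, map_mul] at k1
  exact mul_left_cancel₀ ((Valuation.ne_zero_iff _).2 (by norm_num)) k1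

lemma nosel_mat {D : ℕ} (h : Adm D) : NoSelmer (E ℚ D) ↔ (mat D).det ≠ 0 := by
  have h1 : NoSelmer (E ℚ D) ↔ _ := nosel_iff h
  rw [h1]
  exact Iff.of_eq (congrArg (fun M => Matrix.det M ≠ 0)
    (Pool.Agent.Results.MP_4a9ea6_nt.TwoPartTwistsX49.mat_eq D))

lemma adm_one : Adm 1 := ⟨squarefree_one, by simp⟩

lemma nosel_one : NoSelmer (E ℚ 1) := by
  rw [nosel_mat adm_one]
  have h1 : split 1 = ∅ := by
    classical
    unfold split
    simp
  have h2 : IsEmpty (split 1) := by
    rw [h1]
    infer_instance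
  rw [Matrix.det_isEmpty]
  exact one_ne_zero

lemma good_of {B d : ℕ} (hd : Adm d) (hd1 : d ≠ 1) (hn : NoSelmer (E ℚ d))
    (hB : 4 * B ≤ 2 ^ (2 * (split d).card)) : Good B d := by
  refine ⟨hd1, hn, fun F _ _ δ hdeg hδ => ?_⟩
  have hc := criterion adm_one hd (Nat.coprime_one_left d) hd1 F δ hdeg hδ
  obtain ⟨h1, h2, -⟩ := hc.2.2.2.2.2.2 ⟨nosel_one, by rw [one_mul]; exact hn⟩
  refine ⟨h1, ?_⟩
  have h3 : 2 ^ (2 * (split d).card) ≤ 2 ^ ex 1 d := by
    apply Nat.pow_le_pow_right (by norm_num)
    unfold ex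
    omega
  omega

lemma adm_cl (D : ℕ) : Adm D ↔ Squarefree D ∧ Pool.Agent.R413.SQ.Cl ∅ ∅ D.primeFactors :=
  Pool.Agent.R413.SQ.Cor.cl_iff D

lemma nosel_gd {D : ℕ} (h : Adm D) : NoSelmer (E ℚ D) ↔
    Pool.Agent.R413.SQ.Gd Pool.Agent.Y698.SG.n4 D.primeFactors :=
  (nosel_mat h).trans (Pool.Agent.R413.SQ.Cor.det_iff h)

lemma split_card {D : ℕ} (h : Adm D) : (split D).card =
    (open Classical in (D.primeFactors.filter fun p => Pool.Agent.R413.SQ.mk p = 1).card) := by
  classical
  unfold split
  congr 1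
  refine Finset.filter_congr fun p hp => ?_
  exact Pool.Agent.R413.SQ.Cor.mk_iff (Nat.prime_of_mem_primeFactors hp) (h.2 p hp)

lemma num_eq {Q : ℕ → Prop} {R : Finset ℕ → Prop} (h : ∀ D, Adm D → (Q D ↔ R D.primeFactors))
    (X : ℕ) : num Q X = (open Classical in ((Finset.Icc 1 X).filter fun D => Squarefree D ∧
      Pool.Agent.R413.SQ.Cl ∅ ∅ D.primeFactors ∧ R D.primeFactors).card) := by
  classical
  unfold num
  refine congrArg Finset.card (Finset.ext fun D => ?_)
  rw [Finset.mem_filter, Finset.mem_filter]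
  refine and_congr_right fun _ => ?_
  rw [← and_assoc, ← adm_cl]
  exact and_congr_right fun hF => h D hF

lemma num_all (X : ℕ) : num (fun _ => True) X = (open Classical in
    ((Finset.Icc 1 X).filter fun D =>
      Squarefree D ∧ Pool.Agent.R413.SQ.Cl ∅ ∅ D.primeFactors).card) := by
  classical
  rw [num_eq (R := fun _ => True) (fun _ _ => Iff.rfl)]
  simp only [and_true]

lemma num_le (B X : ℕ) : num (Good B) X ≤ (open Classical in
    ((Finset.Icc 1 X).filter fun D => Squarefree D ∧ Pool.Agent.R413.SQ.Cl ∅ ∅ D.primeFactors ∧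
      Pool.Agent.R413.SQ.Gd Pool.Agent.Y698.SG.n4 D.primeFactors).card) := by
  classical
  unfold num
  refine Finset.card_le_card fun D hD => ?_
  rw [Finset.mem_filter] at hD ⊢
  obtain ⟨h1, h2, h3⟩ := hD
  exact ⟨h1, ((adm_cl D).1 h2).1, ((adm_cl D).1 h2).2, (nosel_gd h2).1 h3.2.1⟩

lemma le_num (B X : ℕ) : (open Classical in
    ((Finset.Icc 1 X).filter fun D => Squarefree D ∧ Pool.Agent.R413.SQ.Cl ∅ ∅ D.primeFactors ∧
      Pool.Agent.R413.SQ.Gd Pool.Agent.Y698.SG.n4 D.primeFactors ∧
      B + 1 ≤ (D.primeFactors.filter fun p => Pool.Agent.R413.SQ.mk p = 1).card).card) ≤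
    num (Good B) X := by
  classical
  unfold num
  refine Finset.card_le_card fun D hD => ?_
  rw [Finset.mem_filter] at hD ⊢
  obtain ⟨h1, h2, h3, h4, h5⟩ := hD
  have hA : Adm D := (adm_cl D).2 ⟨h2, h3⟩
  have h6 : B + 1 ≤ (split D).card := by
    rw [split_card hA]
    convert h5
  refine ⟨h1, hA, good_of hA ?_ ((nosel_gd hA).2 h4) ?_⟩
  · rintro rfl
    unfold split at h6
    simp at h6
  · have h7 : B < 2 ^ B := Nat.lt_two_pow_self
    have h8 : 2 ^ (2 * (B + 1)) ≤ 2 ^ (2 * (split D).card) :=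
      Nat.pow_le_pow_right (by norm_num) (by omega)
    have h9 : 2 ^ (2 * (B + 1)) = 4 * (2 ^ B * 2 ^ B) := by ring
    have h10 : 2 ^ B ≤ 2 ^ B * 2 ^ B := Nat.le_mul_of_pos_left _ (by positivity)
    omega

end proof

open Classical in
/-- **The 2-part of the strong conjecture of Birch and Swinnerton-Dyer for the twists of `X_0(49)` over real
quadratic fields.** -/
theorem result :
    (∀ D d : ℕ, Adm D → Adm d → D.Coprime d → d ≠ 1 →
      (GoodPair D d ↔ (mat D).det ≠ 0 ∧ (mat (D * d)).det ≠ 0) ∧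
      ∀ (F : Type) [Field F] [NumberField F] (δ : F), Module.finrank ℚ F = 2 → δ ^ 2 = (d : F) →
        Criterion D d F) ∧
    (∀ B : ℕ,
      Tendsto (fun X : ℕ => (num (Good B) X : ℝ) / (num (fun _ => True) X : ℝ)) atTop (𝓝 cc) ∧
      ∃ (a : ℝ) (X₀ : ℕ), 0 < a ∧ ∀ X : ℕ, X₀ ≤ X →
        a * X / Real.sqrt (Real.log X) ≤ (num (Good B) X : ℝ)) ∧
    0.4194 < cc ∧ cc < 0.4195 := by
  have hc := Pool.Agent.Y948.CQ.t_C2.2.2.2
  refine ⟨fun D d hD hd hcop hd1 => ⟨?_, fun F _ _ δ hdeg hδ => criterion hD hd hcop hd1 F δ hdeg hδ⟩,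
    fun B => ⟨?_, ?_⟩, hc.1, hc.2⟩
  · exact and_congr (nosel_mat hD)
      (nosel_mat (Pool.Agent.E8helper76.RQ.adm_coprime_mul hD hd hcop))
  · have h1 := Pool.Agent.R413.SQ.t_DEN ∅ ∅ Pool.Agent.Y698.SG.n4 trivial
    have h2 := (Pool.Agent.E8helper76.RQ.t_BIG (B + 1) Pool.Agent.Y698.SG.n4).1
    unfold Pool.Agent.Y703.CQ.c2 at h1 h2
    refine tendsto_of_tendsto_of_tendsto_of_le_of_le h2 h1 (fun X => ?_) (fun X => ?_)
    · show _ / _ ≤ _ / _
      rw [num_all]
      exact div_le_div_of_nonneg_right ((Nat.cast_le (α := ℝ)).2 (le_num B X)) (Nat.cast_nonneg _)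
    · show _ / _ ≤ _ / _
      rw [num_all]
      exact div_le_div_of_nonneg_right ((Nat.cast_le (α := ℝ)).2 (num_le B X)) (Nat.cast_nonneg _)
  · obtain ⟨a, X₀, ha, h⟩ := (Pool.Agent.E8helper76.RQ.t_BIG (B + 1) Pool.Agent.Y698.SG.n4).2
    exact ⟨a, X₀, ha, fun X hX => (h X hX).trans ((Nat.cast_le (α := ℝ)).2 (le_num B X))⟩

end Pool.Agent.Results.MP_9ab903_nt.TwoPartX49RealQuadraticH76
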